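import Mathlib

/-!
# Definition of the linear system steps
-/

namespace PGL

/-- A linear system step from the subfield `F` to the subfield `F'` of `M`, relative to the field
of constants `K`.  Here `V` is a subfield of `M` which contains `K`, with a set `W` of (additive)
valuations with values in `ℤ ∪ {∞}`, trivial on `K` and such that an element of `V` at which all of
them are nonnegative is in `K` (for instance the function field of a normal projective variety and
the orders of vanishing along its prime divisors); `y 0, …, y n` are elements of `V` and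
`L 0, …, L (N - 1)` are linear forms with coefficients in `K`, any `n + 1` of them linearly
independent; for `w` in `W`, the value of `L i y` exceeds the minimum of the values of the `y j` by
at most one (the member `L i = 0` of the linear system given by `y` is reduced); the element `L i y`
is nonzero and of the form `u * b i * z i ^ m` with `b i` in `F` and `m ≥ 2`; the number `N` is at
least `N₀ n`; and the field `F'` contains `F` and is algebraic over the field generated by `F` and
the ratios `y i / y j`. -/
structure LinSysStep {M : Type*} [Field M] (N₀ : ℕ → ℕ) (K F F' : Subfield M) : Prop where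
  le : F ≤ F'
  step : ∃ (V : Subfield M) (W : Set (AddValuation V (WithTop ℤ))) (n N m : ℕ)
    (y : Fin (n + 1) → V) (L : Fin N → Fin (n + 1) → V) (u : M) (b z : Fin N → M),
    N₀ n ≤ N ∧ 2 ≤ m ∧ K ≤ V ∧
    (∀ w ∈ W, ∀ c : V, (c : M) ∈ K → c ≠ 0 → w c = 0) ∧
    (∀ x : V, (∀ w ∈ W, 0 ≤ w x) → (x : M) ∈ K) ∧
    (∀ i j, (L i j : M) ∈ K) ∧
    (∀ s : Finset (Fin N), s.card = n + 1 → LinearIndependent V (fun i : s => L i)) ∧
    (∀ w ∈ W, ∀ i j, w (∑ l, L i l * y l) ≤ 1 + w (y j)) ∧
    (∀ i, ∑ l, L i l * y l ≠ 0 ∧ b i ∈ F ∧ ((∑ l, L i l * y l : V) : M) = u * b i * z i ^ m) ∧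
    ∀ a ∈ F', IsAlgebraic
      (Subfield.closure ((F : Set M) ∪ {a | ∃ i j, a = (y i : M) / (y j : M)})) a

end PGL
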