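import Mathlib
import Pool.Agent.Helper1_PGH.Deriv
import Pool.Agent.Helper1_PGH.DerivExt
import Pool.Agent.Helper1_PGH.Height

/-!
# Statements of part K (the height inequality)

`R` is the function field of a curve `T` with a vector `f` of elements of `R` (a map to projective
space), `E` is another function field with a vector `y`, and `yT k y f = ∑ y j ⊗ f j` in `E ⊗ R`.
-/

open scoped TensorProduct
open PGH

universe u v w

namespace PGL

/-- `∑ y j ⊗ f j` in `E ⊗[k] R` -/
noncomputable def yT (k : Type*) {E R ι : Type*} [Field k] [CommRing E] [CommRing R] [Algebra k E]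
    [Algebra k R] [Fintype ι] (y : ι → E) (f : ι → R) : E ⊗[k] R := ∑ j, y j ⊗ₜ[k] f j

/-- the value of the linear form with coefficients `c` at `y` -/
noncomputable def lin {k E ι : Type*} [Field k] [CommRing E] [Algebra k E] [Fintype ι]
    (c : ι → k) (y : ι → E) : E := ∑ j, algebraMap k E (c j) * y j

/-- DOM: tensor products of domains over an algebraically closed field are domains -/
def DomStmt : Prop :=
  ∀ (k : Type u) (A : Type v) (B : Type w) [Field k] [IsAlgClosed k] [CommRing A] [IsDomain A]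
    [CommRing B] [IsDomain B] [Algebra k A] [Algebra k B], IsDomain (A ⊗[k] B)

open Classical in
/-- the space of the functions with poles bounded by the multiset `m` -/
noncomputable def Lm {k R : Type*} [Field k] [Field R] [Algebra k R]
    (m : Multiset (Place k R)) : Submodule k R := LD (fun P => ((m.count P : ℕ) : ℤ))

/-- RIEM: equality in Riemann's inequality for large divisors -/
def RiemStmt : Prop :=
  ∀ (k R : Type u) [Field k] [IsAlgClosed k] [CharZero k] [Field R] [Algebra k R] [FF k R],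
    ∃ m₀ : Multiset (Place k R), ∀ m : Multiset (Place k R),
      Module.finrank k (Lm (m₀ + m)) = Module.finrank k (Lm m₀) + Multiset.card m

/-- the image of `E ⊗ W` in `E ⊗ R` -/
def tens (k : Type*) (E : Type*) {R : Type*} [Field k] [Field E] [Field R] [Algebra k E]
    [Algebra k R] (W : Submodule k R) : Submodule k (E ⊗[k] R) :=
  LinearMap.range (TensorProduct.map (LinearMap.id : E →ₗ[k] E) W.subtype)

open Classical in
/-- the multiset `a` is the exact pole divisor of the vector `g` -/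
def ExactPole {k R : Type*} [Field k] [Field R] [Algebra k R] {l : ℕ} (g : Fin (l + 1) → R)
    (a : Multiset (Place k R)) : Prop :=
  (∀ (P : Place k R) s, P.Ge (-((a.count P : ℕ) : ℤ)) (g s)) ∧
    ∀ P : Place k R, ∃ s, ¬ P.Ge (-((a.count P : ℕ) : ℤ) + 1) (g s)

open Classical in
/-- the poles of the vector `f` are bounded by the multiset `b` -/
def PolesLe {k R : Type*} [Field k] [Field R] [Algebra k R] {l : ℕ} (f : Fin l → R)
    (b : Multiset (Place k R)) : Prop :=
  ∀ (P : Place k R) j, P.Ge (-((b.count P : ℕ) : ℤ)) (f j)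

/-- GAUSS: if `yT y g * t` has its `R`-coefficients in `Lm (D + a)`, where `a` is the exact pole
divisor of `g` and the `y j` are linearly independent over `k`, then `t` has its coefficients in
`Lm D`. -/
def GaussStmt : Prop :=
  ∀ (k E R : Type u) [Field k] [IsAlgClosed k] [CharZero k] [Field E] [Field R] [Algebra k E]
    [Algebra k R] [FF k R] (l : ℕ) (g : Fin (l + 1) → R) (y : Fin (l + 1) → E)
    (a D : Multiset (Place k R)), ExactPole g a → LinearIndependent k y → ∀ t : E ⊗[k] R,
    yT k y g * t ∈ tens k E (Lm (D + a)) → t ∈ tens k E (Lm D)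

/-- COP: coprimality with the derivative on the side of `R` gives coprimality with the derivative
on the side of `E` -/
def CopStmt : Prop :=
  ∀ (k E R : Type u) [Field k] [IsAlgClosed k] [CharZero k] [Field E] [Field R] [Algebra k E]
    [Algebra k R] [FF k E] [FF k R] (l : ℕ) (g : Fin (l + 1) → R) (y : Fin (l + 1) → E)
    (D : Derivation ℤ E E) (del : Derivation k R R),
    (∀ c : k, D (algebraMap k E c) = 0) → (∀ w : E, D w = 0 → ∃ c : k, algebraMap k E c = w) →
    del ≠ 0 → IsCoprime (yT k y g) (yT k y (fun s => del (g s))) →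
    IsCoprime (yT k y g) (yT k (fun s => D (y s)) g)

/-- multiplication matrices of a curve -/
structure MulData (k : Type*) [Field k] (l N δ : ℕ) where
  H : ℕ
  M0 : Fin (l + 1) → Matrix (Fin (H + δ)) (Fin H) k
  M1 : Fin (l + 1) → Matrix (Fin (H + δ + δ)) (Fin (H + δ)) k
  e : Fin N → Fin (H + δ + δ) → k
  e' : Fin N → Fin (H + δ) → k
  p : Fin N → Fin (l + 1) → k
  comm : ∀ s t, M1 s * M0 t = M1 t * M0 s
  indep : LinearIndependent k e
  rel : ∀ i s, Matrix.vecMul (e i) (M1 s) = p i s • e' i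
  inj : ∀ c : Fin (l + 1) → k, c ≠ 0 → Function.Injective (∑ s, c s • M0 s).mulVec

/-- the matrix of the multiplication by `yT y g` -/
noncomputable def mulMat {k E : Type*} [Field k] [Field E] [Algebra k E] {l a b : ℕ}
    (M : Fin (l + 1) → Matrix (Fin a) (Fin b) k) (y : Fin (l + 1) → E) :
    Matrix (Fin a) (Fin b) E := ∑ s, y s • (M s).map (algebraMap k E)

/-- the determinant of `A` together with the columns of `B` selected by `σ (Sum.inr j)` -/
def bigDet {E : Type*} [CommRing E] {H δ : ℕ} (A B : Matrix (Fin (H + δ + δ)) (Fin (H + δ)) E)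
    (σ : Fin H ⊕ Fin δ ≃ Fin (H + δ)) : E :=
  (Matrix.of (fun (i j : Fin (H + δ) ⊕ Fin δ) =>
    Sum.elim (fun j => A (finSumFinEquiv i) j)
      (fun j => B (finSumFinEquiv i) (σ (Sum.inr j))) j)).det

/-- the minor of `P` given by the rows `σ (Sum.inl i)` -/
def minDet {E : Type*} [CommRing E] {H δ : ℕ} (P : Matrix (Fin (H + δ)) (Fin H) E)
    (σ : Fin H ⊕ Fin δ ≃ Fin (H + δ)) : E :=
  (Matrix.of (fun (i j : Fin H) => P (σ (Sum.inl i)) j)).det

/-- DETL: the maximal minors of `[A | B]` which contain `A` and the complementary minors of `P`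
are proportional when `A * Q = B * P` -/
def DetlStmt : Prop :=
  ∀ (E : Type u) [Field E] (H δ : ℕ) (A B : Matrix (Fin (H + δ + δ)) (Fin (H + δ)) E)
    (P Q : Matrix (Fin (H + δ)) (Fin H) E), A * Q = B * P →
    ∀ (σ σ' : Fin H ⊕ Fin δ ≃ Fin (H + δ)),
      bigDet A B σ * minDet P σ' = bigDet A B σ' * minDet P σ ∨
      bigDet A B σ * minDet P σ' = -(bigDet A B σ' * minDet P σ)

/-- ROWS: a determinant over the valuation ring of a place is divisible by the product of the
divisors of independent combinations (over `k`) of its rows -/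
def RowsStmt : Prop :=
  ∀ (k E : Type u) [Field k] [IsAlgClosed k] [CharZero k] [Field E] [Algebra k E] [FF k E]
    (v : Place k E) (ι : Type) [Fintype ι] [DecidableEq ι] (N : ℕ) (e : Fin N → ι → k)
    (A : Matrix ι ι E) (m : Fin N → ℤ), LinearIndependent k e → (∀ i j, v.Ge 0 (A i j)) →
    (∀ i, 0 ≤ m i) →
    (∀ i j, v.Ge (m i) (Matrix.vecMul (fun r => algebraMap k E (e i r)) A j)) →
    v.Ge (∑ i, m i) A.det

/-- UNIT: if the reduction of an integral matrix is injective, some maximal minor is a unit -/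
def UnitStmt : Prop :=
  ∀ (k E : Type u) [Field k] [IsAlgClosed k] [CharZero k] [Field E] [Algebra k E] [FF k E]
    (v : Place k E) (H δ : ℕ) (A : Matrix (Fin (H + δ)) (Fin H) E)
    (A₀ : Matrix (Fin (H + δ)) (Fin H) k),
    (∀ i j, v.Ge 1 (A i j - algebraMap k E (A₀ i j))) → Function.Injective A₀.mulVec →
    ∃ σ : Fin H ⊕ Fin δ ≃ Fin (H + δ), minDet A σ ≠ 0 ∧ v.ord (minDet A σ) = 0

/-- MATR: existence of a nonzero maximal minor which contains `A` -/
def MatRStmt : Prop :=
  ∀ (E : Type u) [Field E] (H δ : ℕ) (A B : Matrix (Fin (H + δ + δ)) (Fin (H + δ)) E)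
    (P Q : Matrix (Fin (H + δ)) (Fin H) E), A * Q = B * P → Function.Injective P.mulVec →
    (∀ w : Fin (H + δ + δ) → E, Matrix.vecMul w A = 0 → Matrix.vecMul w B = 0 → w = 0) →
    ∃ σ : Fin H ⊕ Fin δ ≃ Fin (H + δ), bigDet A B σ ≠ 0

/-- MATL: the local bound, for an integral vector `y` -/
def MatLStmt : Prop :=
  ∀ (k E : Type u) [Field k] [IsAlgClosed k] [CharZero k] [Field E] [Algebra k E] [FF k E]
    (l N δ : ℕ) (X : MulData k l N δ) (y : Fin (l + 1) → E) (D : Derivation ℤ E E)
    (v : Place k E) (c : ℤ) (σ : Fin X.H ⊕ Fin δ ≃ Fin (X.H + δ)),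
    (∀ c : k, D (algebraMap k E c) = 0) → (∀ s, v.Ge 0 (y s)) → DGe v D (-c) →
    (∀ i, lin (X.p i) y ≠ 0) →
    v.Ge (-(δ * c) + ∑ i, max 0 (v.ord (lin (X.p i) y) - 1))
      (bigDet (mulMat X.M1 y) (mulMat X.M1 (fun s => D (y s))) σ)

/-- MATH: homogeneity of the determinants -/
def MatHStmt : Prop :=
  ∀ (k E : Type u) [Field k] [Field E] [Algebra k E] (l N δ : ℕ) (X : MulData k l N δ)
    (y : Fin (l + 1) → E) (D : Derivation ℤ E E) (x : E)
    (σ : Fin X.H ⊕ Fin δ ≃ Fin (X.H + δ)),
    bigDet (mulMat X.M1 (fun s => x * y s)) (mulMat X.M1 (fun s => D (x * y s))) σ =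
      x ^ (X.H + δ + δ) * bigDet (mulMat X.M1 y) (mulMat X.M1 (fun s => D (y s))) σ ∧
    minDet (mulMat X.M0 (fun s => x * y s)) σ = x ^ X.H * minDet (mulMat X.M0 y) σ

/-- MAT: the determinant argument -/
def MatStmt : Prop :=
  ∀ (k E : Type u) [Field k] [IsAlgClosed k] [CharZero k] [Field E] [Algebra k E] [FF k E]
    (l N δ : ℕ) (X : MulData k l N δ) (y : Fin (l + 1) → E) (D : Derivation ℤ E E),
    (∀ c : k, D (algebraMap k E c) = 0) → y ≠ 0 →
    (∀ w : Fin (X.H + δ + δ) → E, Matrix.vecMul w (mulMat X.M1 y) = 0 →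
      Matrix.vecMul w (mulMat X.M1 (fun s => D (y s))) = 0 → w = 0) →
    ∃ ρ : E, ρ ≠ 0 ∧ ∀ (v : Place k E) (a c : ℤ), (∀ s, v.Ge a (y s)) →
      (∃ s, ¬ v.Ge (a + 1) (y s)) → DGe v D (-c) →
      2 * δ * a - δ * c + ∑ i, max 0 (v.ord (lin (X.p i) y) - a - 1) ≤ v.ord ρ

/-- SETD: the spaces and the functionals attached to a curve -/
def SetDStmt : Prop :=
  ∀ (k R : Type u) [Field k] [IsAlgClosed k] [CharZero k] [Field R] [Algebra k R] [FF k R]
    (l N : ℕ) (g : Fin (l + 1) → R) (a : Multiset (Place k R)) (Q : Fin N → Place k R)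
    (lam : Fin N → R) (p : Fin N → Fin (l + 1) → k), ExactPole g a → Function.Injective Q →
    (∀ i s, (Q i).Ge 1 (lam i * g s - algebraMap k R (p i s))) → (∀ i, p i ≠ 0) →
    ∃ (D : Multiset (Place k R)) (e : Fin N → Lm (D + a + a) →ₗ[k] k)
      (e' : Fin N → Lm (D + a) →ₗ[k] k),
      Module.finrank k (Lm (D + a)) = Module.finrank k (Lm D) + Multiset.card a ∧
      Module.finrank k (Lm (D + a + a)) =
        Module.finrank k (Lm D) + Multiset.card a + Multiset.card a ∧
      LinearIndependent k e ∧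
      ∀ i s (w : Lm (D + a)) (w' : Lm (D + a + a)), (w' : R) = g s * w → e i w' = p i s * e' i w

/-- SETK: surjectivity of the multiplication by a coprime pair -/
def SetKStmt : Prop :=
  ∀ (k E R : Type u) [Field k] [IsAlgClosed k] [CharZero k] [Field E] [Field R] [Algebra k E]
    [Algebra k R] [FF k R] (l : ℕ) (g : Fin (l + 1) → R) (a D : Multiset (Place k R))
    (y z : Fin (l + 1) → E), ExactPole g a → LinearIndependent k y →
    IsCoprime (yT k y g) (yT k z g) →
    Module.finrank k (Lm (D + a)) = Module.finrank k (Lm D) + Multiset.card a →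
    Module.finrank k (Lm (D + a + a)) =
      Module.finrank k (Lm D) + Multiset.card a + Multiset.card a →
    ∀ t ∈ tens k E (Lm (D + a + a)), ∃ s₁ ∈ tens k E (Lm (D + a)), ∃ s₂ ∈ tens k E (Lm (D + a)),
      yT k y g * s₁ + yT k z g * s₂ = t

/-- SETUP: the multiplication data attached to a curve -/
def SetupStmt : Prop :=
  ∀ (k R : Type u) [Field k] [IsAlgClosed k] [CharZero k] [Field R] [Algebra k R] [FF k R]
    (l N : ℕ) (g : Fin (l + 1) → R) (a : Multiset (Place k R)) (Q : Fin N → Place k R)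
    (lam : Fin N → R) (p : Fin N → Fin (l + 1) → k), LinearIndependent k g → ExactPole g a →
    Function.Injective Q → (∀ i s, (Q i).Ge 1 (lam i * g s - algebraMap k R (p i s))) →
    (∀ i, p i ≠ 0) →
    ∃ X : MulData k l N (Multiset.card a), X.p = p ∧
      ∀ (E : Type u) [Field E] [Algebra k E] (y z : Fin (l + 1) → E), LinearIndependent k y →
        IsCoprime (yT k y g) (yT k z g) →
        ∀ w : Fin (X.H + Multiset.card a + Multiset.card a) → E,
          Matrix.vecMul w (mulMat X.M1 y) = 0 → Matrix.vecMul w (mulMat X.M1 z) = 0 → w = 0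

/-- KRED: reduction to linearly independent coordinates -/
def KRedStmt : Prop :=
  ∀ (k E R : Type u) [Field k] [IsAlgClosed k] [CharZero k] [Field E] [Field R] [Algebra k E]
    [Algebra k R] [FF k E] [FF k R] (n N : ℕ) (f : Fin (n + 1) → R) (b : Multiset (Place k R))
    (Q : Fin N → Place k R) (lam : Fin N → R) (p : Fin N → Fin (n + 1) → k)
    (y : Fin (n + 1) → E) (del : Derivation k R R), LinearIndependent k f → PolesLe f b →
    (∀ i j, (Q i).Ge 1 (lam i * f j - algebraMap k R (p i j))) → y ≠ 0 →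
    IsCoprime (yT k y f) (yT k y (fun s => del (f s))) →
    ∃ (l : ℕ) (g : Fin (l + 1) → R) (a : Multiset (Place k R)) (lam' : Fin N → R)
      (p' : Fin N → Fin (l + 1) → k) (c : Fin (l + 1) → E),
      LinearIndependent k g ∧ LinearIndependent k c ∧ ExactPole g a ∧
      Multiset.card a ≤ Multiset.card b ∧
      (∀ i s, (Q i).Ge 1 (lam' i * g s - algebraMap k R (p' i s))) ∧
      (∀ i, lin (p' i) c = lin (p i) y) ∧
      IsCoprime (yT k c g) (yT k c (fun s => del (g s))) ∧
      ∀ (v : Place k E) (α : ℤ), (∀ j, v.Ge α (y j)) ↔ ∀ s, v.Ge α (c s)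

/-- KINEQ: the height inequality -/
def KIneqStmt : Prop :=
  ∀ (k E R : Type u) [Field k] [IsAlgClosed k] [CharZero k] [Field E] [Field R] [Algebra k E]
    [Algebra k R] [FF k E] [FF k R] (n N : ℕ) (f : Fin (n + 1) → R) (b : Multiset (Place k R))
    (Q : Fin N → Place k R) (lam : Fin N → R) (p : Fin N → Fin (n + 1) → k)
    (y : Fin (n + 1) → E) (D : Derivation ℤ E E) (del : Derivation k R R)
    (cp : Place k E → ℕ) (sc : Finset (Place k E)),
    LinearIndependent k f → PolesLe f b →
    Function.Injective Q → (∀ i j, (Q i).Ge 1 (lam i * f j - algebraMap k R (p i j))) →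
    (∀ c : k, D (algebraMap k E c) = 0) → (∀ w : E, D w = 0 → ∃ c : k, algebraMap k E c = w) →
    (∀ v : Place k E, DGe v D (-(cp v : ℤ))) → (∀ v ∉ sc, cp v = 0) →
    del ≠ 0 → IsCoprime (yT k y f) (yT k y (fun s => del (f s))) → (∀ i, lin (p i) y ≠ 0) →
    y ≠ 0 →
    ∃ (α : Place k E → ℤ) (s₀ : Finset (Place k E)), (∀ (v : Place k E) j, v.Ge (α v) (y j)) ∧
      (∀ v : Place k E, ∃ j, ¬ v.Ge (α v + 1) (y j)) ∧ (∀ v ∉ s₀, α v = 0) ∧
      ∀ s : Finset (Place k E), s₀ ⊆ s → sc ⊆ s →
        ∑ v ∈ s, ∑ i, max 0 (v.ord (lin (p i) y) - α v - 1) ≤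
          2 * (Multiset.card b : ℤ) * (-∑ v ∈ s, α v) + (Multiset.card b : ℤ) * ∑ v ∈ sc, (cp v : ℤ)

/-- HBL: the local inequality for a vector with power values -/
def HblStmt : Prop :=
  ∀ (k E : Type u) [Field k] [IsAlgClosed k] [CharZero k] [Field E] [Algebra k E] [FF k E]
    (n N m : ℕ) (v : Place k E) (p : Fin N → Fin (n + 1) → k) (y : Fin (n + 1) → E) (α : ℤ)
    (u : E) (β z : Fin N → E),
    (∀ s : Finset (Fin N), s.card = n + 1 → LinearIndependent k (fun i : s => p i)) → n < N →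
    2 ≤ m → (∀ j, v.Ge α (y j)) → (∃ j, ¬ v.Ge (α + 1) (y j)) → (∀ i, lin (p i) y ≠ 0) →
    (∀ i, lin (p i) y = u * β i * z i ^ m) →
    ∀ i, α ≤ v.ord (lin (p i) y) ∧
      ((∀ j, v.ord (β j) = 0) →
        v.ord (lin (p i) y) - α ≤ 2 * max 0 (v.ord (lin (p i) y) - α - 1)) ∧
      v.ord (lin (p i) y) - α ≤ 2 * max 0 (v.ord (lin (p i) y) - α - 1) + 1

/-- HB: the height bound for a vector with power values -/
def HbStmt : Prop :=
  ∀ (k E R : Type u) [Field k] [IsAlgClosed k] [CharZero k] [Field E] [Field R] [Algebra k E]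
    [Algebra k R] [FF k E] [FF k R] (n N m : ℕ) (f : Fin (n + 1) → R) (b : Multiset (Place k R))
    (I : Finset (Fin N)) (Q : Fin N → Place k R) (lam : Fin N → R) (p : Fin N → Fin (n + 1) → k)
    (y : Fin (n + 1) → E) (u : E) (β z : Fin N → E) (D : Derivation ℤ E E)
    (del : Derivation k R R) (cp : Place k E → ℕ) (sc : Finset (Place k E)),
    LinearIndependent k f → PolesLe f b →
    Set.InjOn Q I → (∀ i ∈ I, ∀ j, (Q i).Ge 1 (lam i * f j - algebraMap k R (p i j))) →
    4 * Multiset.card b < I.card →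
    (∀ s : Finset (Fin N), s.card = n + 1 → LinearIndependent k (fun i : s => p i)) →
    2 ≤ m → n < N →
    (∀ c : k, D (algebraMap k E c) = 0) → (∀ w : E, D w = 0 → ∃ c : k, algebraMap k E c = w) →
    (∀ v : Place k E, DGe v D (-(cp v : ℤ))) → (∀ v ∉ sc, cp v = 0) →
    del ≠ 0 → IsCoprime (yT k y f) (yT k y (fun s => del (f s))) → (∀ i, lin (p i) y ≠ 0) →
    (∀ i, lin (p i) y = u * β i * z i ^ m) →
    ∀ i j, (ht k (y i / y j) : ℤ) ≤
      2 * (Multiset.card b : ℤ) * ∑ v ∈ sc, (cp v : ℤ) + N * ∑ i, 2 * (ht k (β i) : ℤ)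

end PGL
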