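import Mathlib
import Pool.Agent.Helper11_PGL.StmtK
import Pool.Agent.Helper1_PGH.Fin
import Pool.Agent.Helper1_PGH.Ultra2

/-!
# Statements of part B (bend and break)
-/

open PGH Polynomial
open scoped IntermediateField

universe u v w

namespace PGL

/-- TAYLOR: expansion at a place -/
def TaylorStmt : Prop :=
  ∀ (k K : Type u) [Field k] [IsAlgClosed k] [CharZero k] [Field K] [Algebra k K] [FF k K]
    (P : Place k K), ∃ τ : K → PowerSeries k,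
      (∀ c : k, τ (algebraMap k K c) = PowerSeries.C c) ∧
      (∀ x y, P.Ge 0 x → P.Ge 0 y → τ (x + y) = τ x + τ y ∧ τ (x * y) = τ x * τ y) ∧
      (∀ x, P.Ge 0 x → ∀ n : ℕ, P.Ge n x ↔ (PowerSeries.X : PowerSeries k) ^ n ∣ τ x) ∧
      ∀ x, P.Ge 0 x → IsAlgebraic k[X] (τ x)

/-- `g` is a quotient of combinations with coefficients in `O` of algebraic power series over `k` -/
def RatOver (k O : Type*) [Field k] [CommRing O] [Algebra k O] (g : PowerSeries O) : Prop :=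
  ∃ (n : ℕ) (α β : Fin n → O) (w : Fin n → PowerSeries k), (∀ i, IsAlgebraic k[X] (w i)) ∧
    ∑ i, PowerSeries.C (β i) * PowerSeries.map (algebraMap k O) (w i) ≠ 0 ∧
    (∑ i, PowerSeries.C (β i) * PowerSeries.map (algebraMap k O) (w i)) * g =
      ∑ i, PowerSeries.C (α i) * PowerSeries.map (algebraMap k O) (w i)

/-- A formal family of homomorphisms -/
structure FormalFam (k : Type u) [Field k] {R : Type u} [CommRing R] [Algebra k R]
    (x₀ : R →ₐ[k] k) (A₀ F₁ : Set R) (O : Type u) [CommRing O] [Algebra k O]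
    (Ψ : R →ₐ[k] PowerSeries O) : Prop where
  const : ∀ r, PowerSeries.constantCoeff (Ψ r) = algebraMap k O (x₀ r)
  base : ∀ t ∈ F₁, ∃ w : PowerSeries k, Ψ t = PowerSeries.map (algebraMap k O) w
  rat : ∀ a ∈ A₀, RatOver k O (Ψ a)
  move : ∃ a ∈ A₀, ∃ j, ∀ c : k, PowerSeries.coeff j (Ψ a) ≠ algebraMap k O c

/-- ULTRAFAM: infinitely many pointed homomorphisms of bounded height give a formal family -/
def UltraFamStmt : Prop :=
  ∀ (k K R : Type u) [Field k] [IsAlgClosed k] [CharZero k] [Field K] [Algebra k K] [FF k K]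
    [CommRing R] [Algebra k R] (A₀ F₁ : Set R) (P₀ : Place k K) (x₀ : R →ₐ[k] k) (B : R → ℕ)
    (ψ : R → K), A₀.Finite → GenBy k A₀ →
    {φ : R →ₐ[k] K | (∀ r, P₀.Ge 1 (φ r - algebraMap k K (x₀ r))) ∧
      (∀ a ∈ A₀, ht k (φ a) ≤ B a) ∧ ∀ t ∈ F₁, φ t = ψ t}.Infinite →
    ∃ Ψ : R →ₐ[k] PowerSeries (Lst k), FormalFam k x₀ A₀ F₁ (Lst k) Ψ

/-- DESC: descent of a formal family to a finitely generated domain -/
def DescStmt : Prop :=
  ∀ (k L R : Type u) [Field k] [IsAlgClosed k] [CharZero k] [Field L] [Algebra k L]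
    [CommRing R] [Algebra k R] (A₀ F₁ : Set R) (x₀ : R →ₐ[k] k) (Ψ : R →ₐ[k] PowerSeries L),
    A₀.Finite → GenBy k A₀ → FormalFam k x₀ A₀ F₁ L Ψ →
    ∃ (O : Type u) (_ : CommRing O) (_ : IsDomain O) (_ : Algebra k O)
      (_ : Algebra.FiniteType k O) (Ψ' : R →ₐ[k] PowerSeries O), FormalFam k x₀ A₀ F₁ O Ψ'

/-- a valuation ring of a field over `k`, with residue field `k` and archimedean -/
structure ResVal (k : Type*) [Field k] {Ω : Type*} [Field Ω] [Algebra k Ω]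
    (V : ValuationSubring Ω) : Prop where
  const : ∀ c : k, algebraMap k Ω c ∈ V
  res : ∀ x ∈ V, ∃ c : k, x - algebraMap k Ω c ∈ V.nonunits
  arch : ∀ x ∈ V.nonunits, ∀ y : Ω, y ≠ 0 → ∃ n : ℕ, x ^ n * y⁻¹ ∈ V

/-- RESALG: residues of algebraic elements -/
def ResAlgStmt : Prop :=
  ∀ (k 𝓕 : Type u) [Field k] [IsAlgClosed k] [Field 𝓕] [Algebra k 𝓕] (U : ValuationSubring 𝓕)
    (L : Subfield 𝓕) (y : 𝓕), (∀ f ∈ L, f ∈ U → ∃ c : k, f - algebraMap k 𝓕 c ∈ U.nonunits) →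
    (∀ c : k, algebraMap k 𝓕 c ∈ U) → IsAlgebraic L y → y ∈ U →
    ∃ c : k, y - algebraMap k 𝓕 c ∈ U.nonunits

/-- VINF: the field of algebraic functions of one variable with a place at infinity -/
def VinfStmt : Prop :=
  ∀ (k : Type u) [Field k] [IsAlgClosed k] [CharZero k],
    ∃ (Ω : Type u) (_ : Field Ω) (_ : Algebra k Ω) (_ : IsAlgClosed Ω) (θ : Ω)
      (V : ValuationSubring Ω), Transcendental k θ ∧ ResVal k V ∧ θ ∉ V

/-- SPEC: specialisation of a finitely generated domain -/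
def SpecStmt : Prop :=
  ∀ (k O : Type u) [Field k] [IsAlgClosed k] [CharZero k] [CommRing O] [IsDomain O] [Algebra k O]
    [Algebra.FiniteType k O] (θ s : O), (∀ c : k, θ ≠ algebraMap k O c) → s ≠ 0 →
    ∃ (Ω : Type u) (_ : Field Ω) (_ : Algebra k Ω) (_ : IsAlgClosed Ω) (χ : O →ₐ[k] Ω)
      (V : ValuationSubring Ω), χ s ≠ 0 ∧ ResVal k V ∧ χ θ ∉ V

/-- SPECFAM: a formal family over a field with a valuation which has a coefficient with a pole -/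
def SpecFamStmt : Prop :=
  ∀ (k O R : Type u) [Field k] [IsAlgClosed k] [CharZero k] [CommRing O] [IsDomain O] [Algebra k O]
    [Algebra.FiniteType k O] [CommRing R] [Algebra k R] (A₀ F₁ : Set R) (x₀ : R →ₐ[k] k)
    (Ψ : R →ₐ[k] PowerSeries O), A₀.Finite → FormalFam k x₀ A₀ F₁ O Ψ →
    ∃ (Ω : Type u) (_ : Field Ω) (_ : Algebra k Ω) (_ : IsAlgClosed Ω)
      (V : ValuationSubring Ω) (Ψ' : R →ₐ[k] PowerSeries Ω), ResVal k V ∧
      FormalFam k x₀ A₀ F₁ Ω Ψ' ∧ ∃ a ∈ A₀, ∃ j, PowerSeries.coeff j (Ψ' a) ∉ V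

/-- ZMT: a consequence of Zariski's main theorem -/
def ZmtStmt : Prop :=
  ∀ (A B 𝓕 : Type u) [CommRing A] [IsDomain A] [IsLocalRing A] [CommRing B] [IsDomain B]
    [Algebra A B] [Field 𝓕] [Algebra B 𝓕], Function.Injective (algebraMap A B) →
    Function.Injective (algebraMap B 𝓕) → ∀ (s : Finset B), Algebra.adjoin A (s : Set B) = ⊤ →
    (∀ b : B, IsIntegral A b → ∃ a : A, algebraMap A B a = b) →
    (∃ b ∈ s, ∀ a : A, algebraMap A B a ≠ b) →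
    ∀ (𝔫 : Ideal B) [𝔫.IsMaximal], (∀ a : A, a ∈ IsLocalRing.maximalIdeal A → algebraMap A B a ∈ 𝔫) →
    (∀ b : B, ∃ a : A, b - algebraMap A B a ∈ 𝔫) →
    ∃ U : ValuationSubring 𝓕, (∀ b : B, algebraMap B 𝓕 b ∈ U) ∧
      (∀ a ∈ IsLocalRing.maximalIdeal A, algebraMap B 𝓕 (algebraMap A B a) ∈ U.nonunits) ∧
      (∀ b ∉ 𝔫, algebraMap B 𝓕 b ∉ U.nonunits) ∧
      ∃ b ∈ s, ∀ a : A, algebraMap B 𝓕 (b - algebraMap A B a) ∉ U.nonunits

/-- the properties of the valuation ring `U` of a field containing `Ω⟦X⟧` -/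
structure UVal {Ω : Type*} [Field Ω] (V : ValuationSubring Ω) {𝓕 : Type*} [Field 𝓕]
    [Algebra (PowerSeries Ω) 𝓕] (U : ValuationSubring 𝓕) : Prop where
  mem : ∀ w : PowerSeries Ω, (∀ j, PowerSeries.coeff j w ∈ V) → algebraMap _ 𝓕 w ∈ U
  small : ∀ w : PowerSeries Ω, (∀ j, PowerSeries.coeff j w ∈ V) →
    PowerSeries.constantCoeff w ∈ V.nonunits → algebraMap _ 𝓕 w ∈ U.nonunits

/-- BBA: bubbling, existence of the valuation -/
def BBAStmt : Prop :=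
  ∀ (k Ω 𝓕 : Type u) [Field k] [IsAlgClosed k] [Field Ω] [Algebra k Ω] [Field 𝓕]
    [Algebra (PowerSeries Ω) 𝓕] (V : ValuationSubring Ω) (ι : Type) [Finite ι]
    (g : ι → PowerSeries Ω) (x : ι → k), ResVal k V →
    Function.Injective (algebraMap (PowerSeries Ω) 𝓕) →
    (∀ i, PowerSeries.constantCoeff (g i) = algebraMap k Ω (x i)) →
    (∀ i, ∃ α β : PowerSeries Ω, (∀ j, PowerSeries.coeff j α ∈ V) ∧
      (∀ j, PowerSeries.coeff j β ∈ V) ∧ β ≠ 0 ∧ β * g i = α) →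
    (∃ i j, PowerSeries.coeff j (g i) ∉ V) →
    ∃ U : ValuationSubring 𝓕, UVal V U ∧ (∀ i, algebraMap _ 𝓕 (g i) ∈ U) ∧
      (∃ i, ∀ c : k, algebraMap _ 𝓕 (g i - PowerSeries.C (algebraMap k Ω c)) ∉ U.nonunits) ∧
      ∀ p : MvPolynomial ι k, MvPolynomial.eval x p ≠ 0 →
        algebraMap _ 𝓕 (MvPolynomial.aeval g p) ∉ U.nonunits

/-- BBG: residually transcendental extensions to a rational function field over an algebraically
closed field -/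
def BBGStmt : Prop :=
  ∀ (k Ω 𝓕 : Type u) [Field k] [IsAlgClosed k] [Field Ω] [IsAlgClosed Ω] [Algebra k Ω] [Field 𝓕]
    [Algebra Ω 𝓕] [Algebra k 𝓕] [IsScalarTower k Ω 𝓕] (V : ValuationSubring Ω)
    (U : ValuationSubring 𝓕), ResVal k V → (∀ w ∈ V, algebraMap Ω 𝓕 w ∈ U) →
    (∀ w ∈ V.nonunits, algebraMap Ω 𝓕 w ∈ U.nonunits) →
    ∀ (x f : 𝓕), f ∈ Ω⟮x⟯ → f ∈ U → (∀ c : k, f - algebraMap k 𝓕 c ∉ U.nonunits) →
    ∃ c d : Ω, ∃ z : 𝓕, d ≠ 0 ∧ z = (x - algebraMap Ω 𝓕 c) / algebraMap Ω 𝓕 d ∧ z ∈ U ∧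
      (∀ e : k, z - algebraMap k 𝓕 e ∉ U.nonunits) ∧
      (∀ g ∈ Ω⟮x⟯, g ≠ 0 → ∃ e : Ω, e ≠ 0 ∧ g / algebraMap Ω 𝓕 e ∈ U ∧
        algebraMap Ω 𝓕 e / g ∈ U) ∧
      ∀ g ∈ Ω⟮x⟯, g ∈ U → ∃ p q : k[X], q ≠ 0 ∧ g * aeval z q - aeval z p ∈ U.nonunits

/-- BBR: residues of quotients of combinations of algebraic power series -/
def BBRStmt : Prop :=
  ∀ (k Ω 𝓕 : Type u) [Field k] [IsAlgClosed k] [Field Ω] [IsAlgClosed Ω] [Algebra k Ω] [Field 𝓕]
    [Algebra (PowerSeries Ω) 𝓕] [Algebra Ω 𝓕] [Algebra k 𝓕] [IsScalarTower k Ω 𝓕]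
    [IsScalarTower Ω (PowerSeries Ω) 𝓕] (V : ValuationSubring Ω)
    (U : ValuationSubring 𝓕) (ι : Type) [Finite ι] (g : ι → PowerSeries Ω), ResVal k V →
    Function.Injective (algebraMap (PowerSeries Ω) 𝓕) → UVal V U →
    (∀ i, algebraMap _ 𝓕 (g i) ∈ U) → (∀ i, RatOver k Ω (g i)) →
    (∃ i, ∀ c : k, algebraMap _ 𝓕 (g i) - algebraMap k 𝓕 c ∉ U.nonunits) →
    ∃ z : 𝓕, z ∈ U ∧ (∀ c : k, z - algebraMap k 𝓕 c ∉ U.nonunits) ∧
      ∀ i, ∃ p q : k[X], q ≠ 0 ∧ algebraMap _ 𝓕 (g i) * aeval z q - aeval z p ∈ U.nonunits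

/-- BBMAIN: infinitely many pointed homomorphisms of bounded height give a nonconstant
homomorphism to a field of rational functions -/
def BBMainStmt : Prop :=
  ∀ (k K R : Type u) [Field k] [IsAlgClosed k] [CharZero k] [Field K] [Algebra k K] [FF k K]
    [CommRing R] [Algebra k R] (A₀ F₁ : Set R) (P₀ : Place k K) (x₀ : R →ₐ[k] k) (B : R → ℕ)
    (ψ : R → K), A₀.Finite → GenBy k A₀ →
    {φ : R →ₐ[k] K | (∀ r, P₀.Ge 1 (φ r - algebraMap k K (x₀ r))) ∧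
      (∀ a ∈ A₀, ht k (φ a) ≤ B a) ∧ ∀ t ∈ F₁, φ t = ψ t}.Infinite →
    ∃ (E : Type u) (_ : Field E) (_ : Algebra k E) (z : E) (φ : R →ₐ[k] E),
      Transcendental k z ∧ k⟮z⟯ = ⊤ ∧ (∃ a ∈ A₀, ∀ c : k, φ a ≠ algebraMap k E c) ∧
      ∀ t ∈ F₁, ∃ c : k, φ t = algebraMap k E c

end PGL
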