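import Mathlib
import Pool.Agent.Helper11_PGL.StmtK

/-!
# Statements of part T (a curve of small degree through many points)
-/

open PGH Polynomial
open scoped IntermediateField

universe u v w

namespace PGL

/-- `a * X` is integral over `k[X, y_l * X]` in `A[X]` (the element `a` has degree at most one over `y`). -/
def HomInt (k : Type*) {A ι : Type*} [Field k] [CommRing A] [Algebra k A] (y : ι → A) (a : A) :
    Prop :=
  IsIntegral (Algebra.adjoin k (insert (X : A[X]) (Set.range fun l => C (y l) * X)))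
    (C a * X : A[X])

/-- An affine variety of dimension `v` and degree at most `D` in `ν`-space, with coordinate ring
`A`, coordinate functions `x` and a finite linear projection with matrix `α`. -/
structure VarD (k : Type u) [Field k] (ν v D : ℕ) (A : Type u) [CommRing A] [Algebra k A]
    (x : Fin ν → A) (α : Fin v → Fin ν → k) : Prop where
  dom : IsDomain A
  gen : Algebra.adjoin k (Set.range x) = ⊤
  indep : AlgebraicIndependent k (fun l => lin (α l) x)
  int : ∀ j, HomInt k (fun l => lin (α l) x) (x j)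
  deg : ∀ (Ω : Type u) [Field Ω] [Algebra k Ω] (η : Fin v → Ω),
    {χ : A →ₐ[k] Ω | ∀ l, χ (lin (α l) x) = η l}.encard ≤ D

/-- the point `p` is on the variety with coordinate functions `x` -/
def OnVar (k : Type*) [Field k] {ν : ℕ} {A : Type*} [CommRing A] [Algebra k A] (x : Fin ν → A)
    (p : Fin ν → k) : Prop := ∃ χ : A →ₐ[k] k, ∀ j, χ (x j) = p j

/-- An affine curve of degree at most `D` in `ν`-space. -/
structure CurvD (k : Type u) [Field k] (ν D : ℕ) (A : Type u) [CommRing A] [Algebra k A]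
    (x : Fin ν → A) (α : Fin ν → k) : Prop where
  dom : IsDomain A
  gen : Algebra.adjoin k (Set.range x) = ⊤
  trans : Transcendental k (lin α x)
  int : ∀ j, HomInt k (fun _ : Unit => lin α x) (x j)
  fin : ∀ (K : Type u) [Field K] [Algebra k K] [Algebra A K] [IsScalarTower k A K]
    [IsFractionRing A K], FiniteDimensional k⟮algebraMap A K (lin α x)⟯ K ∧
      Module.finrank k⟮algebraMap A K (lin α x)⟯ K ≤ D

/-- GREEDY: choice of points of `S` where a polynomial does not vanish -/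
def GreedyStmt : Prop :=
  ∀ (k : Type u) [Field k] (β : Type u) [DecidableEq β] [DecidableEq k] (M v e : ℕ)
    (F : MvPolynomial (Fin M × Fin v) k) (S : Finset β) (π : β → Fin v → k), F ≠ 0 →
    F.totalDegree ≤ e →
    (∃ q : Fin M → β, Function.Injective q ∧ (∀ i, q i ∈ S) ∧
      MvPolynomial.eval (fun ij : Fin M × Fin v => π (q ij.1) ij.2) F ≠ 0) ∨
    ∃ c : MvPolynomial (Fin v) k, c ≠ 0 ∧ c.totalDegree ≤ e ∧
      (S.filter (fun b => MvPolynomial.eval (π b) c ≠ 0)).card ≤ M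

/-- finiteness of the curve `g = 0` over the line with coordinate `Y 0` -/
structure FinProp (k : Type u) [Field k] {m : ℕ} (B : ℕ)
    (g : Fin m → MvPolynomial (Fin (m + 1)) k) : Prop where
  int : ∀ (A : Type u) [CommRing A] [Algebra k A] (y : Fin (m + 1) → A),
    (∀ l, MvPolynomial.aeval y (g l) = 0) → ∀ j, HomInt k (fun _ : Unit => y 0) (y j)
  card : ∀ (Ω : Type u) [Field Ω] [Algebra k Ω] (η₀ : Ω),
    {η : Fin (m + 1) → Ω | η 0 = η₀ ∧ ∀ l, MvPolynomial.aeval η (g l) = 0}.encard ≤ B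

/-- the exponents of degree at most `s` in `m + 1` variables, other than `s` times the unit vector
in the direction `l ≠ 0` -/
def JJ (m s : ℕ) : Type :=
  {a : Fin (m + 1) →₀ ℕ // (a.sum fun _ e => e) ≤ s ∧ ∀ l : Fin m, a ≠ Finsupp.single l.succ s}

/-- BINOM: there are more exponents in `JJ m s` than `C` times the number of monomials of degree at
most `m * (s - 1)` in `m` variables, for some `s` -/
def BinomStmt : Prop :=
  ∀ m C : ℕ, ∃ s, 1 ≤ s ∧ Finite (JJ m s) ∧ C * (m * (s - 1) + m).choose m < Nat.card (JJ m s)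

/-- GRID: there are integer points `q i`, `i ∈ JJ m s`, on the lines `Y_l ∈ {1, ..., s}`, `l ≠ 0`,
at which the monomials with exponents in `JJ m s` are linearly independent. -/
def GridStmt : Prop :=
  ∀ (m s : ℕ), 1 ≤ s →
    ∃ q : JJ m s → Fin (m + 1) → ℤ, (∀ i (l : Fin m), ∃ a : ℕ, 1 ≤ a ∧ a ≤ s ∧ q i l.succ = a) ∧
      ∀ c : JJ m s →₀ ℚ,
        (∀ i, c.sum (fun a t => t * a.1.prod (fun l e => (q i l : ℚ) ^ e)) = 0) → c = 0

/-- the coordinates of the generic configuration of points -/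
noncomputable def genPt (m s : ℕ) (ij : JJ m s × Fin (m + 1)) :
    MvPolynomial (JJ m s × Fin (m + 1)) ℤ := MvPolynomial.X ij

/-- CRAMER: the generic interpolation: the polynomials `Δ * Y_l ^ s - ∑ a, Nm l a * Y ^ a` vanish at
the points, and for some configuration with `Δ ≠ 0` the coefficients of the monomials of degree `s`
which do not contain `Y_0` vanish -/
def CramerStmt : Prop :=
  ∀ (m s : ℕ), 1 ≤ s → ∃ (Δ : MvPolynomial (JJ m s × Fin (m + 1)) ℤ)
    (Nm : Fin m → JJ m s →₀ MvPolynomial (JJ m s × Fin (m + 1)) ℤ),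
    (∀ (i : JJ m s) (l : Fin m), Δ * genPt m s (i, l.succ) ^ s =
      (Nm l).sum (fun a t => t * a.1.prod (fun j e => genPt m s (i, j) ^ e))) ∧
    ∃ q : JJ m s → Fin (m + 1) → ℤ, MvPolynomial.eval (fun ij => q ij.1 ij.2) Δ ≠ 0 ∧
      ∀ l a, (a.1.sum fun _ e => e) = s → a.1 0 = 0 →
        MvPolynomial.eval (fun ij => q ij.1 ij.2) (Nm l a) = 0

/-- the hypothesis of `MACAULAY` -/
def MacHyp (k : Type u) [Field k] (m t : ℕ) (g : Fin m → MvPolynomial (Fin (m + 1)) k) : Prop :=
  ∀ a : Fin (m + 1) →₀ ℕ, a 0 = 0 → (a.sum fun _ e => e) = t + 1 →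
    ∃ r : MvPolynomial (Fin (m + 1)) k,
      MvPolynomial.monomial a 1 - r ∈ Ideal.span (Set.range g) ∧ r.totalDegree ≤ t + 1 ∧
      ∀ b ∈ r.support, ∑ l : Fin m, b l.succ ≤ t

/-- MACAULAY: finiteness over the line with coordinate `Y 0` -/
def MacaulayStmt : Prop :=
  ∀ (k : Type u) [Field k] (m t : ℕ) (g : Fin m → MvPolynomial (Fin (m + 1)) k),
    MacHyp k m t g → FinProp k ((t + m).choose m) g

/-- POLYZ: a polynomial whose non-vanishing provides a curve through the points -/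
def PolyZStmt : Prop :=
  ∀ (m s : ℕ), 1 ≤ s → ∃ F : MvPolynomial (JJ m s × Fin (m + 1)) ℤ, F ≠ 0 ∧
    ∀ (k : Type u) [Field k] (q : JJ m s → Fin (m + 1) → k),
      MvPolynomial.aeval (fun ij : JJ m s × Fin (m + 1) => q ij.1 ij.2) F ≠ 0 →
      ∃ g : Fin m → MvPolynomial (Fin (m + 1)) k,
        (∀ i l, MvPolynomial.eval (q i) (g l) = 0) ∧ MacHyp k m (m * (s - 1)) g

/-- POLYF: a nonzero polynomial `F` on the `M`-tuples of points of the affine `(m+1)`-space whose
non-vanishing provides a curve through the points, of degree at most `B` with `C * B < M` -/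
def PolyFStmt : Prop :=
  ∀ (m C : ℕ), ∃ (B M e : ℕ), C * B < M ∧ ∀ (k : Type u) [Field k] [CharZero k],
    ∃ F : MvPolynomial (Fin M × Fin (m + 1)) k, F ≠ 0 ∧ F.totalDegree ≤ e ∧
      ∀ q : Fin M → Fin (m + 1) → k,
        MvPolynomial.eval (fun ij : Fin M × Fin (m + 1) => q ij.1 ij.2) F ≠ 0 →
        ∃ g : Fin m → MvPolynomial (Fin (m + 1)) k,
          (∀ i l, MvPolynomial.eval (q i) (g l) = 0) ∧ FinProp k B g

/-- HOMINT: basic properties of `HomInt` -/
structure HomIntRules : Prop where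
  map : ∀ (k A B : Type u) (ι : Type) [Field k] [CommRing A] [Algebra k A] [CommRing B]
    [Algebra k B] (φ : A →ₐ[k] B) (y : ι → A) (a : A), HomInt k y a →
    HomInt k (fun l => φ (y l)) (φ a)
  trans : ∀ (k A : Type u) (ι κ : Type) [Field k] [CommRing A] [Algebra k A] (y : ι → A)
    (z : κ → A) (a : A), HomInt k y a → (∀ l, HomInt k z (y l)) → HomInt k z a
  self : ∀ (k A : Type u) (ι : Type) [Field k] [CommRing A] [Algebra k A] (y : ι → A) (l : ι),
    HomInt k y (y l)
  const : ∀ (k A : Type u) (ι : Type) [Field k] [CommRing A] [Algebra k A] (y : ι → A) (c : k),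
    HomInt k y (algebraMap k A c)
  add : ∀ (k A : Type u) (ι : Type) [Field k] [CommRing A] [Algebra k A] (y : ι → A) (a b : A),
    HomInt k y a → HomInt k y b → HomInt k y (a + b)
  smul : ∀ (k A : Type u) (ι : Type) [Field k] [CommRing A] [Algebra k A] (y : ι → A) (c : k)
    (a : A), HomInt k y a → HomInt k y (algebraMap k A c * a)
  isIntegral : ∀ (k A : Type u) (ι : Type) [Field k] [CommRing A] [Algebra k A] (y : ι → A)
    (a : A), HomInt k y a → IsIntegral (Algebra.adjoin k (Set.range y)) a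
  monic : ∀ (k A : Type u) [Field k] [CommRing A] [Algebra k A] (v e : ℕ) (y : Fin (v + 1) → A)
    (c : MvPolynomial (Fin (v + 1)) k), c.totalDegree ≤ e →
    c.coeff (Finsupp.single (Fin.last v) e) ≠ 0 → MvPolynomial.aeval y c = 0 → 1 ≤ e →
    HomInt k (fun l : Fin v => y l.castSucc) (y (Fin.last v))

def HomIntStmt : Prop := HomIntRules.{u}

/-- GD: consequences of going down for a domain which is integral over a polynomial ring -/
def GdStmt : Prop :=
  ∀ (k : Type u) [Field k] [IsAlgClosed k] (v : ℕ) (A : Type u) [CommRing A] [IsDomain A]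
    [Algebra k A] (y : Fin v → A), Algebra.FiniteType k A → AlgebraicIndependent k y →
    (∀ a : A, IsIntegral (Algebra.adjoin k (Set.range y)) a) →
    (∀ (m : ℕ) (g : Fin m → A) (𝔭 : Ideal A), 𝔭 ∈ (Ideal.span (Set.range g)).minimalPrimes →
      m < v → ¬ 𝔭.IsMaximal) ∧
    ∀ (c : MvPolynomial (Fin v) k) (𝔭 : Ideal A), c ≠ 0 →
      𝔭 ∈ (Ideal.span {MvPolynomial.aeval y c}).minimalPrimes →
      ∃ c₁ : MvPolynomial (Fin v) k, Irreducible c₁ ∧ c₁ ∣ c ∧
        ∀ F : MvPolynomial (Fin v) k, MvPolynomial.aeval y F ∈ 𝔭 → c₁ ∣ F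

/-- COUNT: degrees of the components are bounded by the number of homomorphisms -/
def CountStmt : Prop :=
  ∀ (k A : Type u) [Field k] [IsAlgClosed k] [CharZero k] [CommRing A] [Algebra k A]
    [Algebra.FiniteType k A] (v : ℕ) (y : Fin v → A) (s : Finset (Ideal A)) (B : ℕ),
    (∀ 𝔭 ∈ s, 𝔭.IsPrime ∧ AlgebraicIndependent k (fun l => Ideal.Quotient.mk 𝔭 (y l)) ∧
      ∀ a : A ⧸ 𝔭,
        IsIntegral (Algebra.adjoin k (Set.range (fun l => Ideal.Quotient.mk 𝔭 (y l)))) a) →
    (∀ (Ω : Type u) [Field Ω] [Algebra k Ω] (η : Fin v → Ω),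
      {χ : A →ₐ[k] Ω | (∀ l, χ (y l) = η l) ∧ ∃ 𝔭 ∈ s, ∀ a ∈ 𝔭, χ a = 0}.encard ≤ B) →
    ∃ d : Ideal A → ℕ, ∑ 𝔭 ∈ s, d 𝔭 ≤ B ∧ ∀ 𝔭 ∈ s, 0 < d 𝔭 ∧
      ∀ (K : Type u) [Field K] [Algebra k K] [Algebra (A ⧸ 𝔭) K] [IsScalarTower k (A ⧸ 𝔭) K]
        [IsFractionRing (A ⧸ 𝔭) K],
        FiniteDimensional (IntermediateField.adjoin k
          (Set.range (fun l => algebraMap (A ⧸ 𝔭) K (Ideal.Quotient.mk 𝔭 (y l))))) K ∧
        Module.finrank (IntermediateField.adjoin k
          (Set.range (fun l => algebraMap (A ⧸ 𝔭) K (Ideal.Quotient.mk 𝔭 (y l))))) K = d 𝔭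

/-- CASEONE: a component of the curve through the points -/
def CaseOneStmt : Prop :=
  ∀ (k : Type u) [Field k] [IsAlgClosed k] [CharZero k] (ν m D B C : ℕ) (A : Type u) [CommRing A]
    [Algebra k A] (x : Fin ν → A) (α : Fin (m + 1) → Fin ν → k)
    (g : Fin m → MvPolynomial (Fin (m + 1)) k) (S : Finset (Fin ν → k)),
    VarD k ν (m + 1) D A x α → FinProp k B g →
    (∀ p ∈ S, OnVar k x p ∧ ∀ l, MvPolynomial.eval (fun l' => lin (α l') p) (g l) = 0) →
    C * (D * B) < S.card →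
    ∃ (A' : Type u) (_ : CommRing A') (_ : Algebra k A') (x' : Fin ν → A') (α' : Fin ν → k)
      (D' : ℕ) (S' : Finset (Fin ν → k)), CurvD k ν D' A' x' α' ∧ S' ⊆ S ∧
      (∀ p ∈ S', OnVar k x' p) ∧ C * D' < S'.card

/-- CASETWO: a component of a hypersurface section containing many points -/
def CaseTwoStmt : Prop :=
  ∀ (k : Type u) [Field k] [IsAlgClosed k] [CharZero k] (ν v D e : ℕ) (A : Type u) [CommRing A]
    [Algebra k A] (x : Fin ν → A) (α : Fin (v + 1) → Fin ν → k)
    (c : MvPolynomial (Fin (v + 1)) k) (S : Finset (Fin ν → k)), 1 ≤ v →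
    VarD k ν (v + 1) D A x α → c ≠ 0 → c.totalDegree ≤ e → S.Nonempty →
    (∀ p ∈ S, OnVar k x p ∧ MvPolynomial.eval (fun l => lin (α l) p) c = 0) →
    ∃ (A' : Type u) (_ : CommRing A') (_ : Algebra k A') (x' : Fin ν → A')
      (α' : Fin v → Fin ν → k) (S' : Finset (Fin ν → k)), VarD k ν v (D * e) A' x' α' ∧ S' ⊆ S ∧
      (∀ p ∈ S', OnVar k x' p) ∧ S.card ≤ D * e * S'.card

/-- PT: a curve through many points of a variety, relative to its degree -/
def PtStmt : Prop :=
  ∀ (ν v D C : ℕ), ∃ Λ : ℕ, ∀ (k : Type u) [Field k] [IsAlgClosed k] [CharZero k] (A : Type u)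
    [CommRing A] [Algebra k A] (x : Fin ν → A) (α : Fin (v + 1) → Fin ν → k)
    (S : Finset (Fin ν → k)), VarD k ν (v + 1) D A x α → (∀ p ∈ S, OnVar k x p) → Λ ≤ S.card →
    ∃ (A' : Type u) (_ : CommRing A') (_ : Algebra k A') (x' : Fin ν → A') (α' : Fin ν → k)
      (D' : ℕ) (S' : Finset (Fin ν → k)), CurvD k ν D' A' x' α' ∧ S' ⊆ S ∧
      (∀ p ∈ S', OnVar k x' p) ∧ C * D' < S'.card

/-- CONV: from the coordinate ring of a curve to its function field -/
def ConvStmt : Prop :=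
  ∀ (k : Type u) [Field k] [IsAlgClosed k] [CharZero k] (ν D : ℕ) (A : Type u) [CommRing A]
    [Algebra k A] (x : Fin ν → A) (α : Fin ν → k) (S : Finset (Fin ν → k)),
    CurvD k ν D A x α → (∀ p ∈ S, OnVar k x p) →
    ∃ (R : Type u) (_ : Field R) (_ : Algebra k R) (_ : FF k R) (x' : Fin ν → R)
      (b : Multiset (Place k R)) (Q : (Fin ν → k) → Place k R),
      0 < Multiset.card b ∧ Multiset.card b ≤ D ∧
      PolesLe x' b ∧
      ∀ p ∈ S, ∀ j, (Q p).Ge 1 (x' j - algebraMap k R (p j))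

/-- CURVE: the curve through many points in general position -/
def CurveStmt : Prop :=
  ∀ (n C : ℕ), ∃ N₀ : ℕ, ∀ (k : Type u) [Field k] [IsAlgClosed k] [CharZero k] (N : ℕ)
    (p : Fin N → Fin (n + 1) → k), N₀ ≤ N →
    (∀ s : Finset (Fin N), s.card = n + 1 → LinearIndependent k (fun i : s => p i)) →
    ∃ (R : Type u) (_ : Field R) (_ : Algebra k R) (_ : FF k R) (f : Fin (n + 1) → R)
      (b : Multiset (Place k R)) (I : Finset (Fin N)) (Q : Fin N → Place k R) (lam : Fin N → R),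
      LinearIndependent k f ∧
      PolesLe f b ∧
      C * Multiset.card b < I.card ∧ Set.InjOn Q I ∧
      ∀ i ∈ I, ∀ j, (Q i).Ge 1 (lam i * f j - algebraMap k R (p i j))

end PGL
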