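import Mathlib
import Pool.Agent.Helper11_PGL.StmtT
import Pool.Agent.Helper11_PGL.StmtB
import Pool.Agent.Helper11_PGL.StepDefs
import Pool.Agent.Helper97_PGH.Good

/-!
# Statements of part G (reducedness, good elements, steps)
-/

open PGH Polynomial
open scoped IntermediateField TensorProduct

universe u v w

namespace PGL

/-- ALGK: a quotient field of `V ⊗ R` in which a nonzero element vanishes is algebraic over `V` -/
def AlgKStmt : Prop :=
  ∀ (k V R κ : Type u) [Field k] [IsAlgClosed k] [CharZero k] [Field V] [Algebra k V] [Field R]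
    [Algebra k R] [FF k R] [Field κ] [Algebra k κ] [Algebra V κ] [IsScalarTower k V κ]
    (ι : R →ₐ[k] κ) (t : V ⊗[k] R), t ≠ 0 →
    Algebra.TensorProduct.lift (IsScalarTower.toAlgHom k V κ) ι (fun _ _ => Commute.all _ _) t = 0 →
    ∀ h : R, IsAlgebraic V (ι h)

/-- VALB: the valuation ring above a pole of a coefficient of a minimal polynomial -/
def ValBStmt : Prop :=
  ∀ (k V R κ : Type u) [Field k] [IsAlgClosed k] [CharZero k] [Field V] [Algebra k V] [Field R]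
    [Algebra k R] [FF k R] [Field κ] [Algebra k κ] [Algebra V κ] [IsScalarTower k V κ]
    (W : Set (AddValuation V (WithTop ℤ))) (ι : R →ₐ[k] κ) (Q : Place k R),
    (∀ w ∈ W, ∀ c : k, c ≠ 0 → w (algebraMap k V c) = 0) →
    (∀ x : V, (∀ w ∈ W, 0 ≤ w x) → ∃ c : k, algebraMap k V c = x) →
    (∀ h : R, IsAlgebraic V (ι h)) →
    ∃ w ∈ W, ∃ B : ValuationSubring κ, (∀ x : V, 0 ≤ w x → algebraMap V κ x ∈ B) ∧
      (∀ x : V, 0 < w x → algebraMap V κ x ∈ B.nonunits) ∧
      (∀ r : R, Q.Ge 0 r → ι r ∈ B) ∧ ∀ r : R, Q.Ge 1 r → ι r ∈ B.nonunits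

/-- SQT: the computation with Taylor expansions -/
def SqTStmt : Prop :=
  ∀ (k V R κ : Type u) [Field k] [IsAlgClosed k] [CharZero k] [Field V] [Algebra k V] [Field R]
    [Algebra k R] [FF k R] [Field κ] [Algebra k κ] [Algebra V κ] [IsScalarTower k V κ]
    (w : AddValuation V (WithTop ℤ)) (ι : R →ₐ[k] κ) (Q : Place k R) (n : ℕ)
    (f : Fin (n + 1) → R) (y : Fin (n + 1) → V) (lam : R) (p : Fin (n + 1) → k)
    (del : Derivation k R R) (B : ValuationSubring κ),
    (∀ c : k, c ≠ 0 → w (algebraMap k V c) = 0) → (∀ x : V, 0 ≤ w x → algebraMap V κ x ∈ B) →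
    (∀ x : V, 0 < w x → algebraMap V κ x ∈ B.nonunits) → (∀ r : R, Q.Ge 0 r → ι r ∈ B) →
    (∀ r : R, Q.Ge 1 r → ι r ∈ B.nonunits) → LinearIndependent k f → p ≠ 0 →
    (∀ j, Q.Ge 1 (lam * f j - algebraMap k R (p j))) →
    (∀ j, w (lin p y) ≤ 1 + w (y j)) → y ≠ 0 → del ≠ 0 →
    ∑ j, algebraMap V κ (y j) * ι (f j) = 0 → ∑ j, algebraMap V κ (y j) * ι (del (f j)) = 0 → False

/-- SQ: reducedness gives coprimality -/
def SqStmt : Prop :=
  ∀ (k V R : Type u) [Field k] [IsAlgClosed k] [CharZero k] [Field V] [Algebra k V] [Field R]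
    [Algebra k R] [FF k R] (W : Set (AddValuation V (WithTop ℤ))) (Q : Place k R) (n : ℕ)
    (f : Fin (n + 1) → R) (y : Fin (n + 1) → V) (lam : R) (p : Fin (n + 1) → k)
    (del : Derivation k R R), (∀ w ∈ W, ∀ c : k, c ≠ 0 → w (algebraMap k V c) = 0) →
    (∀ x : V, (∀ w ∈ W, 0 ≤ w x) → ∃ c : k, algebraMap k V c = x) →
    LinearIndependent k f → p ≠ 0 → (∀ j, Q.Ge 1 (lam * f j - algebraMap k R (p j))) →
    (∀ w ∈ W, ∀ j, w (lin p y) ≤ 1 + w (y j)) → y ≠ 0 → del ≠ 0 →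
    IsCoprime (yT k y f) (yT k y (fun s => del (f s)))

/-- CERT: a coprimality relation specialises -/
def CertStmt : Prop :=
  ∀ (k V M R : Type u) [Field k] [Field V] [Field M] [Field R] [Algebra k V] [Algebra k M]
    [Algebra V M] [IsScalarTower k V M] [Algebra k R] (n : ℕ) (f g : Fin (n + 1) → R)
    (y : Fin (n + 1) → V), IsCoprime (yT k y f) (yT k y g) →
    ∃ T : Set M, T.Finite ∧ ∀ (S : Subalgebra k M), T ⊆ (S : Set M) → ∀ (E : Type u) [Field E]
      [Algebra k E] (φ : S →ₐ[k] E),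
      IsCoprime (yT k (fun j => ev φ (algebraMap V M (y j))) f)
        (yT k (fun j => ev φ (algebraMap V M (y j))) g)

/-- the values of `a` at a rational curve on which the values on `F₀` are constant, are constant -/
def NoRat (k : Type u) {M : Type u} [Field k] [Field M] [Algebra k M] (F₀ T : Set M) (a : M) :
    Prop :=
  ∀ (E : Type u) [Field E] [Algebra k E] (z : E), Transcendental k z → k⟮z⟯ = ⊤ →
    ∀ (R : Subalgebra k M), T ⊆ (R : Set M) → ∀ φ : R →ₐ[k] E,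
      (∀ t ∈ T, t ∈ F₀ → ∃ c : k, ev φ t = algebraMap k E c) → ∃ c : k, ev φ a = algebraMap k E c

/-- good elements of `M` over `F₀` -/
def GoodEl2 (k : Type u) {M : Type u} [Field k] [Field M] [Algebra k M] (F₀ : Set M) (a : M) :
    Prop :=
  ∃ T : Set M, T.Finite ∧ a ∈ T ∧ Bdd k F₀ T a ∧ NoRat k F₀ T a

/-- GALG: elements algebraic over a field generated by good elements are good -/
def GAlgStmt : Prop :=
  ∀ (k M : Type u) [Field k] [Field M] [Algebra k M] [IsAlgClosed k] [CharZero k] (F₀ : Set M),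
    (∀ a ∈ F₀, GoodEl2 k F₀ a) ∧ (∀ c : k, GoodEl2 k F₀ (algebraMap k M c)) ∧
    ∀ S : Set M, (∀ s ∈ S, GoodEl2 k F₀ s) → ∀ a : M, IsAlgebraic (Subfield.closure S) a →
      GoodEl2 k F₀ a

/-- FIN2B: finiteness of the pointed homomorphisms when all elements are good -/
def Fin2BStmt : Prop :=
  ∀ (k M : Type u) [Field k] [Field M] [Algebra k M] [IsAlgClosed k] [CharZero k] (F₀ : Set M),
    (∀ a : M, GoodEl2 k F₀ a) →
    ∀ A : Subalgebra k M, A.FG → ∃ T : Set M, T.Finite ∧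
      ∀ d ∈ A, d ≠ 0 → T ⊆ (Algebra.adjoin k ((A : Set M) ∪ {d⁻¹}) : Set M) →
      ∀ (E : Type u) [Field E] [Algebra k E] [FF k E] (P : Place k E)
        (x : Algebra.adjoin k ((A : Set M) ∪ {d⁻¹}) →ₐ[k] k) (ψ : M → E),
        {φ : Algebra.adjoin k ((A : Set M) ∪ {d⁻¹}) →ₐ[k] E |
          (∀ r, P.Ge 1 (φ r - algebraMap k E (x r))) ∧
            ∀ r : Algebra.adjoin k ((A : Set M) ∪ {d⁻¹}), (r : M) ∈ T ∩ F₀ →
              φ r = ψ r}.Finite

/-- DRAT: the derivation `d/dz` of the field of rational functions -/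
def DRatStmt : Prop :=
  ∀ (k E : Type u) [Field k] [IsAlgClosed k] [CharZero k] [Field E] [Algebra k E] (z : E),
    Transcendental k z → k⟮z⟯ = ⊤ → FF k E ∧ ∃ D : Derivation ℤ E E,
      (∀ c : k, D (algebraMap k E c) = 0) ∧ (∀ w : E, D w = 0 → ∃ c : k, algebraMap k E c = w) ∧
      ∀ P : Place k E, DGe P D 0

/-- STEPG: the data of a step give good elements -/
def StepGStmt : Prop :=
  ∀ (n : ℕ), ∃ N₀ : ℕ, ∀ (k M V : Type u) [Field k] [Field M] [Algebra k M] [IsAlgClosed k]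
    [CharZero k] [Field V] [Algebra k V] [Algebra V M] [IsScalarTower k V M] (F₀ : Set M)
    (W : Set (AddValuation V (WithTop ℤ))) (N m : ℕ) (y : Fin (n + 1) → V)
    (L : Fin N → Fin (n + 1) → k) (x : M) (b z : Fin N → M), N₀ ≤ N → 2 ≤ m →
    (∀ w ∈ W, ∀ c : k, c ≠ 0 → w (algebraMap k V c) = 0) →
    (∀ x : V, (∀ w ∈ W, 0 ≤ w x) → ∃ c : k, algebraMap k V c = x) →
    (∀ s : Finset (Fin N), s.card = n + 1 → LinearIndependent k (fun i : s => L i)) →
    (∀ w ∈ W, ∀ i j, w (lin (L i) y) ≤ 1 + w (y j)) →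
    (∀ i, lin (L i) y ≠ 0 ∧ GoodEl2 k F₀ (b i) ∧
      algebraMap V M (lin (L i) y) = x * b i * z i ^ m) →
    ∀ i j, GoodEl2 k F₀ (algebraMap V M (y i) / algebraMap V M (y j))

/-- STEP: a linear system step preserves good elements -/
def StepStmt : Prop :=
  ∃ N₀ : ℕ → ℕ, ∀ (k M : Type u) [Field k] [Field M] [Algebra k M] [IsAlgClosed k] [CharZero k]
    (F₀ : Set M) (F F' : Subfield M), LinSysStep N₀ (algebraMap k M).fieldRange F F' →
    (∀ a ∈ F, GoodEl2 k F₀ a) → ∀ a ∈ F', GoodEl2 k F₀ a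

/-- HYPER: the step given by hyperplanes -/
def HyperStmt : Prop :=
  ∀ (N₀ : ℕ → ℕ) (k M : Type u) [Field k] [Field M] [Algebra k M] [IsAlgClosed k] [CharZero k]
    (F F' : Subfield M) (n N m : ℕ) (x : Fin n → M) (L : Fin N → Fin (n + 1) → k) (u : M)
    (b z : Fin N → M), F ≤ F' → N₀ n ≤ N → n < N → 2 ≤ m → AlgebraicIndependent k x →
    (∀ s : Finset (Fin N), s.card = n + 1 → LinearIndependent k (fun i : s => L i)) →
    (∀ i, b i ∈ F ∧ algebraMap k M (L i 0) + ∑ l : Fin n, algebraMap k M (L i l.succ) * x l =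
      u * b i * z i ^ m) →
    (∀ a ∈ F', IsAlgebraic (Subfield.closure ((F : Set M) ∪ Set.range x)) a) →
    LinSysStep N₀ (algebraMap k M).fieldRange F F'

end PGL
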