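import Mathlib
import Pool.Agent.Helper11_PGL.StmtG
import Pool.Agent.Helper97_PGH.TowerDefs
import Pool.Agent.Helper97_PGH.SchemeRel

open CategoryTheory AlgebraicGeometry PGH

universe u

namespace PGL

theorem good2_of_tower {k M : Type u} [Field k] [Field M] [Algebra k M] {N₀ : ℕ → ℕ}
    (h1 : ∀ (F₀ : Set M) (F F' : Subfield M), LinSysStep N₀ (algebraMap k M).fieldRange F F' →
      (∀ a ∈ F, GoodEl2 k F₀ a) → ∀ a ∈ F', GoodEl2 k F₀ a) {F₀ : Set M} {F F' : Subfield M}
    (h : Relation.ReflTransGen (LinSysStep N₀ (algebraMap k M).fieldRange) F F')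
    (hF : ∀ a ∈ F, GoodEl2 k F₀ a) : ∀ a ∈ F', GoodEl2 k F₀ a := by
  induction h with
  | refl => exact hF
  | tail _ h ih => exact h1 F₀ _ _ h ih

/-- the main theorem, from the statements of the squad -/
theorem main_of (h1 : StepStmt.{u}) (h2 : Fin2BStmt.{u}) (h3 : GAlgStmt.{u}) (h4 : HyperStmt.{u}) :
    ∃ N₀ : ℕ → ℕ, ∀ {k : Type u} [Field k] [IsAlgClosed k] [CharZero k] {X : Scheme.{u}}
      (f : X ⟶ Spec (.of k)) [IsIntegral X] [IsSeparated f] [LocallyOfFiniteType f]
      [QuasiCompact f],
      (Relation.ReflTransGen (LinSysStep N₀ (constants k f).fieldRange)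
        (constants k f).fieldRange ⊤ → IsPGH k f) ∧
      (∀ {Y : Scheme.{u}} (q : Y ⟶ Spec (.of k)) [IsIntegral Y] (g : X ⟶ Y) [IsDominant g],
        g ≫ q = f → IsPGH k q →
        Relation.ReflTransGen (LinSysStep N₀ (constants k f).fieldRange)
          (pullbackField g).fieldRange ⊤ → IsPGH k f) ∧
      ∀ (n N m : ℕ) (x : Fin n → X.functionField) (L : Fin N → Fin (n + 1) → k)
        (u : X.functionField) (z : Fin N → X.functionField), N₀ n ≤ N → 2 ≤ m →
        (∀ p : MvPolynomial (Fin n) k, MvPolynomial.eval₂ (constants k f) x p = 0 → p = 0) →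
        (∀ s : Finset (Fin N), s.card = n + 1 → LinearIndependent k (fun i : s => L i)) →
        (∀ i, constants k f (L i 0) + ∑ l : Fin n, constants k f (L i l.succ) * x l =
          u * z i ^ m) →
        (∀ a : X.functionField, IsAlgebraic
          (Subfield.closure (((constants k f).fieldRange : Set X.functionField) ∪ Set.range x))
            a) → IsPGH k f := by
  obtain ⟨N₁, hN₁⟩ := h1
  -- enlarge `N₁` so that it exceeds `n`
  have hle : ∀ {M : Type u} [Field M] {K F F' : Subfield M},
      LinSysStep (fun n => max (N₁ n) (n + 1)) K F F' → LinSysStep N₁ K F F' := by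
    intro M _ K F F' h
    refine ⟨h.le, ?_⟩
    obtain ⟨V, W, n, N, m, y, L, u, b, z, hN, h⟩ := h.step
    exact ⟨V, W, n, N, m, y, L, u, b, z, (le_max_left _ _).trans hN, h⟩
  refine ⟨fun n => max (N₁ n) (n + 1), ?_⟩
  intro k _ _ _ X f _ _ _ _
  let _ : Algebra k X.functionField := (constants k f).toAlgebra
  have key : Relation.ReflTransGen
      (LinSysStep (fun n => max (N₁ n) (n + 1)) (constants k f).fieldRange)
        (constants k f).fieldRange ⊤ → IsPGH k f := by
    intro h
    have hgood : ∀ a : X.functionField, GoodEl2 k (∅ : Set X.functionField) a := fun a =>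
      good2_of_tower (k := k) (fun F₀ F F' hs => hN₁ k X.functionField F₀ F F' (hle hs)) h
        (by rintro _ ⟨c, rfl⟩; exact (h3 k X.functionField _).2.1 c) a trivial
    refine isPGH_of_fields k f X.functionField (RingEquiv.refl _) (fun c => rfl) ?_
    intro A hA
    obtain ⟨T, hT, hh⟩ := h2 k X.functionField _ hgood A hA
    refine ⟨T, hT, fun d hd hd0 hTR E _ _ _ P x => ?_⟩
    refine (hh d hd hd0 hTR E P x (fun _ => 0)).subset ?_
    intro φ hφ
    exact ⟨hφ, fun r hr => absurd hr.2 (Set.notMem_empty _)⟩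
  refine ⟨key, fun {Y} q _ g _ hgq hY h => ?_, ?_⟩
  · have hgood : ∀ a : X.functionField,
        GoodEl2 k (Set.range (fun b => RingEquiv.refl _ (pullbackField g b))) a := fun a =>
      good2_of_tower (k := k) (fun F₀ F F' hs => hN₁ k X.functionField F₀ F F' (hle hs)) h
        (by rintro _ ⟨b, rfl⟩; exact (h3 k X.functionField _).1 _ ⟨b, rfl⟩) a trivial
    exact isPGH_of_fields_rel k f q g hgq hY X.functionField (RingEquiv.refl _) (fun c => rfl)
      (h2 k X.functionField _ hgood)
  · intro n N m x L u z hN hm hx hL hval halg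
    apply key
    apply Relation.ReflTransGen.single
    refine h4 _ k X.functionField _ _ n N m x L u (fun _ => 1) z le_top hN
      ((le_max_right _ _).trans hN) hm ?_ hL (fun i => ⟨one_mem _, ?_⟩) (fun a _ => halg a)
    · rw [algebraicIndependent_iff]
      intro p hp
      exact hx p hp
    · rw [mul_one]
      exact hval i

end PGL
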