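import Mathlib
import Pool.Agent.Helper11_PGL.StmtT

open PGH Polynomial

universe u

namespace PGL

/-- POLYF -/
theorem polyF_stmt (hB : BinomStmt) (hZ : PolyZStmt.{u}) (hM : MacaulayStmt.{u}) :
    PolyFStmt.{u} := by
  classical
  intro m C
  obtain ⟨s, hs, hfin, hcard⟩ := hB m C
  obtain ⟨F, hF0, hF⟩ := hZ m s hs
  have := Fintype.ofFinite (JJ m s)
  set M := Nat.card (JJ m s) with hMdef
  let e : JJ m s ≃ Fin M := Finite.equivFin (JJ m s)
  refine ⟨(m * (s - 1) + m).choose m, M, F.totalDegree, hcard, ?_⟩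
  intro k _ _
  let G : MvPolynomial (Fin M × Fin (m + 1)) ℤ :=
    MvPolynomial.rename (fun ij : JJ m s × Fin (m + 1) => (e ij.1, ij.2)) F
  have hinj : Function.Injective (fun ij : JJ m s × Fin (m + 1) => (e ij.1, ij.2)) := by
    rintro ⟨a, b⟩ ⟨c, d⟩ h
    simp only [Prod.mk.injEq, EmbeddingLike.apply_eq_iff_eq] at h
    exact Prod.ext h.1 h.2
  refine ⟨MvPolynomial.map (Int.castRingHom k) G, ?_, ?_, ?_⟩
  · intro h0
    apply hF0
    have h1 : G = 0 := by
      apply MvPolynomial.map_injective (Int.castRingHom k) (RingHom.injective_int _)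
      rw [h0, map_zero]
    apply MvPolynomial.rename_injective _ hinj
    rw [map_zero]
    exact h1
  · have h1 : G.totalDegree ≤ F.totalDegree := MvPolynomial.totalDegree_rename_le _ F
    refine le_trans ?_ h1
    exact Finset.sup_mono (MvPolynomial.support_map_subset _ _)
  · intro q hq
    have h1 : MvPolynomial.aeval (fun ij : JJ m s × Fin (m + 1) => q (e ij.1) ij.2) F ≠ 0 := by
      intro h0
      apply hq
      rw [MvPolynomial.eval_map]
      change MvPolynomial.eval₂ (Int.castRingHom k) _ (MvPolynomial.rename _ F) = 0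
      rw [MvPolynomial.eval₂_rename]
      exact h0
    obtain ⟨g, hg, hg'⟩ := hF k (fun i => q (e i)) h1
    refine ⟨g, ?_, hM k m _ g hg'⟩
    intro i l
    have := hg (e.symm i) l
    rwa [Equiv.apply_symm_apply] at this

end PGL
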