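import Mathlib
import Pool.Agent.Helper11_PGL.StmtG

open PGH Polynomial

universe u

namespace PGL

/-- STEP -/
theorem step_stmt (h1 : StepGStmt.{u}) (h2 : GAlgStmt.{u}) : StepStmt.{u} := by
  choose N₀ hN₀ using h1
  refine ⟨N₀, ?_⟩
  intro k M _ _ _ _ _ F₀ F F' hstep hF a ha
  obtain ⟨V, W, n, N, m, y, L, u, b, z, hN, hm, hKV, hW, hWc, hLK, hind, hred, hval, halg⟩ :=
    hstep.step
  have hKV' : ∀ c : k, algebraMap k M c ∈ V := fun c => hKV ⟨c, rfl⟩
  let _ : Algebra k V := ((algebraMap k M).codRestrict V hKV').toAlgebra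
  have hkV : ∀ c : k, ((algebraMap k V c : V) : M) = algebraMap k M c := fun c => rfl
  have : IsScalarTower k V M := IsScalarTower.of_algebraMap_eq (fun c => rfl)
  choose c hc using hLK
  have hcL : ∀ i l, algebraMap k V (c i l) = L i l := fun i l => Subtype.ext (hc i l)
  have hlin : ∀ i, lin (c i) y = ∑ l, L i l * y l := fun i => by
    unfold lin
    exact Finset.sum_congr rfl (fun l _ => by rw [hcL])
  have hgood := hN₀ n k M V F₀ W N m y c u b z hN hm
    (fun w hw e he => hW w hw (algebraMap k V e) ⟨e, rfl⟩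
      (by rw [Ne, map_eq_zero]; exact he))
    (fun x hx => by
      obtain ⟨e, he⟩ := hWc x hx
      exact ⟨e, Subtype.ext he⟩)
    (by
      intro s hs
      have h3 := hind s hs
      rw [Fintype.linearIndependent_iff] at h3 ⊢
      intro g hg i
      have h4 := h3 (fun i => algebraMap k V (g i)) (by
        funext l
        have h5 := congrFun hg l
        rw [Finset.sum_apply] at h5 ⊢
        simp only [Pi.smul_apply, smul_eq_mul] at h5 ⊢
        have h6 : ∀ x : s, algebraMap k V (g x) * L x l = algebraMap k V (g x * c x l) := by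
          intro x; rw [map_mul, hcL]
        rw [Finset.sum_congr rfl (fun x _ => h6 x), ← map_sum, h5]
        simp) i
      exact (map_eq_zero _).1 h4)
    (fun w hw i j => by rw [hlin]; exact hred w hw i j)
    (fun i => ⟨by rw [hlin]; exact (hval i).1, hF _ (hval i).2.1, by
      rw [hlin]; exact (hval i).2.2⟩)
  refine (h2 k M F₀).2.2 _ ?_ a (halg a ha)
  rintro s (hs | ⟨i, j, rfl⟩)
  · exact hF s hs
  · exact hgood i j

end PGL
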