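import Mathlib
import Pool.Agent.Helper11_PGL.StmtG

open PGH Polynomial
open scoped IntermediateField

universe u

namespace PGL

section values

variable {k M V E : Type u} [Field k] [Field M] [Algebra k M] [Field V] [Algebra k V]
  [Algebra V M] [IsScalarTower k V M] [Field E] [Algebra k E]

/-- the values of a vector and of linear forms under a homomorphism of a subalgebra -/
theorem lin_ev {n : ℕ} {S : Subalgebra k M} (φ : S →ₐ[k] E) (y : Fin (n + 1) → V)
    (hy : ∀ j, algebraMap V M (y j) ∈ S) (c : Fin (n + 1) → k) :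
    algebraMap V M (lin c y) ∈ S ∧
      lin c (fun j => ev φ (algebraMap V M (y j))) = ev φ (algebraMap V M (lin c y)) := by
  have h1 : algebraMap V M (lin c y) = ∑ j, algebraMap k M (c j) * algebraMap V M (y j) := by
    unfold lin
    rw [map_sum]
    refine Finset.sum_congr rfl (fun j _ => ?_)
    rw [map_mul, ← IsScalarTower.algebraMap_apply]
  have h2 : ∀ j, algebraMap k M (c j) * algebraMap V M (y j) ∈ S := fun j =>
    mul_mem (S.algebraMap_mem _) (hy j)
  constructor
  · rw [h1]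
    exact sum_mem (fun j _ => h2 j)
  · rw [h1, ev_sum φ _ _ (fun j _ => h2 j)]
    unfold lin
    refine Finset.sum_congr rfl (fun j _ => ?_)
    rw [ev_mul φ (S.algebraMap_mem _) (hy j), ev_mem φ (S.algebraMap_mem (c j))]
    congr 1
    exact (φ.commutes (c j)).symm

end values

theorem ht_eq_zero_iff {k E : Type u} [Field k] [IsAlgClosed k] [CharZero k] [Field E]
    [Algebra k E] [FF k E] {w : E} (h : ht k w = 0) : ∃ c : k, w = algebraMap k E c := by
  by_contra hcon
  have h1 : Transcendental k w := by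
    rw [PGH.transcendental_iff]
    intro c hc
    exact hcon ⟨c, hc.symm⟩
  have := ht_pos h1
  omega

/-- STEPG -/
theorem stepG_stmt (hC : CurveStmt.{u}) (hH : HbStmt.{u}) (hS : SqStmt.{u}) (hCert : CertStmt.{u})
    (hD : DRatStmt.{u}) : StepGStmt.{u} := by
  classical
  intro n
  obtain ⟨N₁, hN₁⟩ := hC n 4
  refine ⟨max N₁ (n + 1), ?_⟩
  intro k M V _ _ _ _ _ _ _ _ _ F₀ W N m y L x b z hN hm hW hWc hind hred hval i j
  have hnN : n < N := (le_max_right _ _).trans hN
  obtain ⟨R, _, _, _, f, b', I, Q, lam, hf, hpol, hcard, hinj, hQ⟩ :=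
    hN₁ k N L ((le_max_left _ _).trans hN) hind
  have hI : I.Nonempty := by
    rw [← Finset.card_pos]
    omega
  obtain ⟨i₀, hi₀⟩ := hI
  obtain ⟨t, htr⟩ := FF.exists_transcendental (L := k) (E := R)
  obtain ⟨del, hdel⟩ := exists_deriv k R htr
  have hdel0 : del ≠ 0 := by
    rintro rfl
    exact zero_ne_one hdel
  have hy0 : y ≠ 0 := by
    rintro rfl
    apply (hval i₀).1
    unfold lin
    simp
  have hL0 : L i₀ ≠ 0 := by
    intro h
    apply (hval i₀).1
    unfold lin
    rw [h]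
    simp
  have hcop := hS k V R W (Q i₀) n f y (lam i₀) (L i₀) del hW hWc hf hL0 (hQ i₀ hi₀)
    (fun w hw j => hred w hw i₀ j) hy0 hdel0
  obtain ⟨Tc, hTc, hcert⟩ := hCert k V M R n f (fun s => del (f s)) y hcop
  choose Tb hTb hbT hbB hbR using fun i => (hval i).2.1
  set T0 : Set M := (⋃ i, Tb i) ∪ (Tc ∪ (Set.range (fun j => algebraMap V M (y j)) ∪
    Set.range (fun j => (algebraMap V M (y j))⁻¹) ∪ {x} ∪ Set.range z ∪
    Set.range (fun i => (algebraMap V M (lin (L i) y))⁻¹) ∪
    {algebraMap V M (y i) / algebraMap V M (y j)})) with hT0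
  have hT0f : T0.Finite := by
    apply Set.Finite.union
    · exact Set.finite_iUnion (fun i => hTb i)
    · refine hTc.union ?_
      exact (((((Set.finite_range _).union (Set.finite_range _)).union
        (Set.finite_singleton _)).union (Set.finite_range _)).union (Set.finite_range _)).union
        (Set.finite_singleton _)
  have hsub : ∀ i, Tb i ⊆ T0 := fun i => (Set.subset_iUnion Tb i).trans Set.subset_union_left
  have hTcs : Tc ⊆ T0 := fun _ h => Or.inr (Or.inl h)
  have hyT : ∀ j, algebraMap V M (y j) ∈ T0 := fun j =>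
    Or.inr (Or.inr (Or.inl (Or.inl (Or.inl (Or.inl (Or.inl ⟨j, rfl⟩))))))
  have hyiT : ∀ j, (algebraMap V M (y j))⁻¹ ∈ T0 := fun j =>
    Or.inr (Or.inr (Or.inl (Or.inl (Or.inl (Or.inl (Or.inr ⟨j, rfl⟩))))))
  have hxT : x ∈ T0 := Or.inr (Or.inr (Or.inl (Or.inl (Or.inl (Or.inr rfl)))))
  have hzT : ∀ i, z i ∈ T0 := fun i => Or.inr (Or.inr (Or.inl (Or.inl (Or.inr ⟨i, rfl⟩))))
  have hliT : ∀ i, (algebraMap V M (lin (L i) y))⁻¹ ∈ T0 := fun i =>
    Or.inr (Or.inr (Or.inl (Or.inr ⟨i, rfl⟩)))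
  have hqT : algebraMap V M (y i) / algebraMap V M (y j) ∈ T0 :=
    Or.inr (Or.inr (Or.inr rfl))
  -- the common part of both estimates
  have key : ∀ (E : Type u) [Field E] [Algebra k E] [FF k E] (D : Derivation ℤ E E)
      (cp : Place k E → ℕ) (sc : Finset (Place k E)),
      (∀ c : k, D (algebraMap k E c) = 0) → (∀ w : E, D w = 0 → ∃ c : k, algebraMap k E c = w) →
      (∀ v : Place k E, DGe v D (-(cp v : ℤ))) → (∀ v ∉ sc, cp v = 0) →
      ∀ (S : Subalgebra k M), T0 ⊆ (S : Set M) → ∀ φ : S →ₐ[k] E,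
      (ht k (ev φ (algebraMap V M (y i) / algebraMap V M (y j))) : ℤ) ≤
        2 * (Multiset.card b' : ℤ) * ∑ v ∈ sc, (cp v : ℤ) + N * ∑ i, 2 * (ht k (ev φ (b i)) : ℤ) := by
    intro E _ _ _ D cp sc hDk hDc hcp hsc S hTS φ
    have hyS : ∀ j, algebraMap V M (y j) ∈ S := fun j => hTS (hyT j)
    have h1 := fun i => lin_ev φ y hyS (L i)
    have hbS : ∀ i, b i ∈ S := fun i => hTS (hsub i (hbT i))
    have hzS : ∀ i, z i ∈ S := fun i => hTS (hzT i)
    have hxS : x ∈ S := hTS hxT
    have hne : ∀ i, lin (L i) (fun j => ev φ (algebraMap V M (y j))) ≠ 0 := by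
      intro i
      rw [(h1 i).2]
      refine ev_ne_zero φ (h1 i).1 (hTS (hliT i)) ?_
      rw [Ne, map_eq_zero]
      exact (hval i).1
    have hpow : ∀ i, lin (L i) (fun j => ev φ (algebraMap V M (y j))) =
        ev φ x * ev φ (b i) * ev φ (z i) ^ m := by
      intro i
      rw [(h1 i).2, (hval i).2.2, ev_mul φ (mul_mem hxS (hbS i)) (pow_mem (hzS i) m),
        ev_mul φ hxS (hbS i), ev_pow φ (hzS i)]
    have hfin := hH k E R n N m f b' I Q lam L (fun j => ev φ (algebraMap V M (y j))) (ev φ x)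
      (fun i => ev φ (b i)) (fun i => ev φ (z i)) D del cp sc hf hpol hinj hQ hcard hind hm hnN hDk
      hDc hcp hsc hdel0 (hcert S (hTcs.trans hTS) E φ) hne hpow i j
    have hdiv : ev φ (algebraMap V M (y i) / algebraMap V M (y j)) =
        ev φ (algebraMap V M (y i)) / ev φ (algebraMap V M (y j)) := by
      by_cases h0 : algebraMap V M (y j) = 0
      · rw [h0, div_zero, ev_zero, div_zero]
      · have h2 : ev φ (algebraMap V M (y j)) ≠ 0 := ev_ne_zero φ (hyS j) (hTS (hyiT j)) h0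
        rw [eq_div_iff h2, ← ev_mul φ (hTS hqT) (hyS j), div_mul_cancel₀ _ h0]
    rw [hdiv]
    exact hfin
  refine ⟨T0, hT0f, hqT, ?_, ?_⟩
  · intro E _ _ _ ψ
    have hch : CharZero E := charZero_of_injective_algebraMap (algebraMap k E).injective
    obtain ⟨t, htr⟩ := FF.exists_transcendental (L := k) (E := E)
    obtain ⟨δ, hδ⟩ := exists_deriv k E htr
    let D : Derivation ℤ E E := δ.restrictScalars ℤ
    have hDk : ∀ c : k, D (algebraMap k E c) = 0 := fun c => δ.map_algebraMap c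
    have hPL : PresL k D := fun c => ⟨0, by rw [hDk, map_zero]⟩
    have hDt : D t ≠ 0 := by
      change δ t ≠ 0
      rw [hδ]; exact one_ne_zero
    have hconst : ∀ w, D w = 0 → ∃ c : k, algebraMap k E c = w := by
      intro w hw
      apply not_transcendental
      intro hwt
      have hal := FF.isAlgebraic hwt
      exact hDt (deriv_zero_of_isAlgebraic_adjoin (AlgHom.id k E) D hDk hw (hal.isAlgebraic t))
    obtain ⟨cp, sc, hsc, hcp⟩ := bounded_poles (L := k) D hPL
    choose Bd hBd using fun i => hbB i E ψ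
    refine ⟨(2 * (Multiset.card b' : ℤ) * ∑ v ∈ sc, (cp v : ℤ) +
      N * ∑ i, 2 * (Bd i : ℤ)).toNat, fun S hTS φ hψ => ?_⟩
    have h1 := key E D cp sc hDk hconst hcp hsc S hTS φ
    have h2 : ∑ i, 2 * (ht k (ev φ (b i)) : ℤ) ≤ ∑ i, 2 * (Bd i : ℤ) := by
      apply Finset.sum_le_sum
      intro i _
      have := hBd i S ((hsub i).trans hTS) φ (fun t ht => hψ t (hsub i ht))
      omega
    have h3 : (N : ℤ) * ∑ i, 2 * (ht k (ev φ (b i)) : ℤ) ≤ N * ∑ i, 2 * (Bd i : ℤ) :=
      mul_le_mul_of_nonneg_left h2 (by positivity)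
    omega
  · intro E _ _ z' hz' htop S hTS φ hF
    obtain ⟨hFF, D, hDk, hDc, hDg⟩ := hD k E z' hz' htop
    have h1 := key E D (fun _ => 0) ∅ hDk hDc (fun v => by simpa using hDg v) (fun _ _ => rfl) S
      hTS φ
    have h2 : ∀ i, ht k (ev φ (b i)) = 0 := by
      intro i
      obtain ⟨c, hc⟩ := hbR i E z' hz' htop S ((hsub i).trans hTS) φ
        (fun t ht ht0 => hF t (hsub i ht) ht0)
      rw [hc, ht_const]
    simp only [h2] at h1
    simp only [mul_zero, Nat.cast_zero, Finset.sum_const_zero, add_zero] at h1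
    obtain ⟨c, hc⟩ := ht_eq_zero_iff (k := k)
      (w := ev φ (algebraMap V M (y i) / algebraMap V M (y j))) (by omega)
    exact ⟨c, hc⟩

end PGL
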