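import Mathlib
import Pool.Agent.Helper11_PGL.StmtG
import Pool.Agent.Helper26_PGL.AlgK
import Pool.Agent.Helper26_PGL.Cop
import Pool.Agent.Helper69_PGL.Bba
import Pool.Agent.Helper69_PGL.Zmt
import Pool.Agent.Helper54_PGL.Bbg
import Pool.Agent.Helper54_PGL.Resalg
import Pool.Agent.Helper54_PGL.Vinf
import Pool.Agent.Helper20_PGL.BBMain
import Pool.Agent.Helper20_PGL.BBR
import Pool.Agent.Helper34_PGL.Binom
import Pool.Agent.Helper15_PGL.CaseOne
import Pool.Agent.Helper33_PGL.CaseTwo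
import Pool.Agent.Helper46_PGL.Count
import Pool.Agent.Helper34_PGL.Cramer
import Pool.Agent.Helper22_PGL.Curve
import Pool.Agent.Helper47_PGL.Desc
import Pool.Agent.Helper8_PGL.Detl
import Pool.Agent.Helper48_PGL.Dom
import Pool.Agent.Helper34_PGL.Fin2B
import Pool.Agent.Helper40_PGL.Gauss
import Pool.Agent.Helper12_PGL.Gd
import Pool.Agent.Helper59_PGL.Greedy
import Pool.Agent.Helper59_PGL.Grid
import Pool.Agent.Helper12_PGL.HomInt
import Pool.Agent.Helper60_PGL.Kineq
import Pool.Agent.Helper60_PGL.Kred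
import Pool.Agent.Helper12_PGL.Mac
import Pool.Agent.Helper60_PGL.Mat
import Pool.Agent.Helper4_PGL.MatL
import Pool.Agent.Helper15_PGL.PolyZ
import Pool.Agent.Helper34_PGL.Pt
import Pool.Agent.Helper48_PGL.Riem
import Pool.Agent.Helper4_PGL.Rows
import Pool.Agent.Helper22_PGL.SetD
import Pool.Agent.Helper22_PGL.SetK
import Pool.Agent.Helper22_PGL.Setup
import Pool.Agent.Helper68_PGL.Spec
import Pool.Agent.Helper3_PGL.Sq
import Pool.Agent.Helper47_PGL.Taylor
import Pool.Agent.Helper40_PGL.Unit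
import Pool.Agent.Helper13_PGL.Valb
import Pool.Agent.Helper13_PGL.Sqt
import Pool.Agent.Helper40_PGL.GAlg
import Pool.Agent.Helper13_PGL.Drat
import Pool.Agent.Helper18_PGL.MatR
import Pool.Agent.Helper18_PGL.Hbl
import Pool.Agent.Helper15_PGL.Hb
import Pool.Agent.Helper33_PGL.UltraFam
import Pool.Agent.Helper11_PGL.PolyF
import Pool.Agent.Helper11_PGL.StepG
import Pool.Agent.Helper11_PGL.Step
import Pool.Agent.Helper11_PGL.Main

universe u

namespace PGL

/-- part K -/
theorem asmK : HbStmt.{u} :=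
  H15.hb (H60.kineq H60.kred (cop (algK H48.dom)) (H22.setup (H22.setD H48.riem) (H22.setK gauss))
    (H60.mat detl_h8 H18.matr H4.matl math_h8 unit)) H18.hbl

/-- part T -/
theorem asmT (hCONV : ConvStmt.{u}) : CurveStmt.{u} :=
  H22.curve (pt H59.greedy (polyF_stmt binom (H15.polyZ (cramer H59.grid)) H12.macaulay)
    (H15.caseOne H12.gd H12.homint H46_count) (PGL33.caseTwo H12.gd H12.homint H46_count)
    H46_count) hCONV

/-- part B -/
theorem asmB : BBMainStmt.{u} :=
  PGL20.bbmain (PGL33.ultraFam H47.taylor) H47.desc (H68.specFam (H68.spec Helper54_PGL.vinf))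
    (H69.bba H69.zmt) (PGL20.bbr Helper54_PGL.resalg Helper54_PGL.bbg)

/-- squarefreeness -/
theorem asmS : SqStmt.{u} := sqStmt (algK H48.dom) H13.valB H13.sqT

end PGL
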