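import Mathlib
import Pool.Agent.Helper11_PGL.StmtG

open PGH Polynomial
open scoped TensorProduct

universe u

namespace PGL.H11

theorem map_yT {k A B R : Type*} [Field k] [CommRing A] [CommRing B] [CommRing R] [Algebra k A]
    [Algebra k B] [Algebra k R] {n : ℕ} (φ : A →ₐ[k] B) (y : Fin n → A) (f : Fin n → R) :
    Algebra.TensorProduct.map φ (AlgHom.id k R) (yT k y f) = yT k (fun j => φ (y j)) f := by
  unfold yT
  rw [map_sum]
  refine Finset.sum_congr rfl (fun j _ => ?_)
  rw [Algebra.TensorProduct.map_tmul]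
  rfl

theorem exists_lift_tensor {k V M R : Type u} [Field k] [Field V] [Field M] [Field R]
    [Algebra k V] [Algebra k M] [Algebra V M] [IsScalarTower k V M] [Algebra k R]
    (t : V ⊗[k] R) : ∃ T : Set M, T.Finite ∧ ∀ S : Subalgebra k M, T ⊆ (S : Set M) →
      ∃ t' : S ⊗[k] R, Algebra.TensorProduct.map S.val (AlgHom.id k R) t' =
        Algebra.TensorProduct.map (IsScalarTower.toAlgHom k V M) (AlgHom.id k R) t := by
  induction t using TensorProduct.induction_on with
  | zero => exact ⟨∅, Set.finite_empty, fun S _ => ⟨0, by rw [map_zero, map_zero]⟩⟩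
  | tmul a r =>
    refine ⟨{algebraMap V M a}, Set.finite_singleton _, fun S hS => ?_⟩
    refine ⟨(⟨algebraMap V M a, hS rfl⟩ : S) ⊗ₜ[k] r, ?_⟩
    rw [Algebra.TensorProduct.map_tmul, Algebra.TensorProduct.map_tmul]
    rfl
  | add a b ha hb =>
    obtain ⟨T₁, h1, h1'⟩ := ha
    obtain ⟨T₂, h2, h2'⟩ := hb
    refine ⟨T₁ ∪ T₂, h1.union h2, fun S hS => ?_⟩
    obtain ⟨x, hx⟩ := h1' S (Set.subset_union_left.trans hS)
    obtain ⟨y, hy⟩ := h2' S (Set.subset_union_right.trans hS)
    exact ⟨x + y, by rw [map_add, map_add, hx, hy]⟩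

/-- CERT -/
theorem cert : CertStmt.{u} := by
  intro k V M R _ _ _ _ _ _ _ _ _ n f g y hcop
  obtain ⟨α, β, hαβ⟩ := hcop
  obtain ⟨T₁, h1, h1'⟩ := exists_lift_tensor (M := M) α
  obtain ⟨T₂, h2, h2'⟩ := exists_lift_tensor (M := M) β
  refine ⟨T₁ ∪ T₂ ∪ Set.range (fun j => algebraMap V M (y j)),
    (h1.union h2).union (Set.finite_range _), ?_⟩
  intro S hS E _ _ φ
  obtain ⟨α', hα'⟩ := h1' S ((Set.subset_union_left.trans Set.subset_union_left).trans hS)
  obtain ⟨β', hβ'⟩ := h2' S ((Set.subset_union_right.trans Set.subset_union_left).trans hS)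
  have hyS : ∀ j, algebraMap V M (y j) ∈ S := fun j => hS (Or.inr ⟨j, rfl⟩)
  let yS : Fin (n + 1) → S := fun j => ⟨algebraMap V M (y j), hyS j⟩
  have hinj : Function.Injective (Algebra.TensorProduct.map S.val (AlgHom.id k R)) := by
    have h3 : Function.Injective (S.val : S →ₗ[k] M) := Subtype.val_injective
    exact Module.Flat.rTensor_preserves_injective_linearMap (M := R) (S.val : S →ₗ[k] M) h3
  have hrel : α' * yT k yS f + β' * yT k yS g = 1 := by
    apply hinj
    rw [map_add, map_mul, map_mul, map_one, map_yT, map_yT, hα', hβ']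
    have h4 := congrArg
      (Algebra.TensorProduct.map (IsScalarTower.toAlgHom k V M) (AlgHom.id k R)) hαβ
    rw [map_add, map_mul, map_mul, map_one, map_yT, map_yT] at h4
    exact h4
  refine ⟨Algebra.TensorProduct.map φ (AlgHom.id k R) α',
    Algebra.TensorProduct.map φ (AlgHom.id k R) β', ?_⟩
  have h5 := congrArg (Algebra.TensorProduct.map φ (AlgHom.id k R)) hrel
  rw [map_add, map_mul, map_mul, map_one, map_yT, map_yT] at h5
  have h6 : (fun j => ev φ (algebraMap V M (y j))) = fun j => φ (yS j) := by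
    funext j
    exact ev_mem φ (hyS j)
  rw [h6]
  exact h5

end PGL.H11
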