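import Mathlib
import Pool.Agent.Helper11_PGL.StmtT

open PGH Polynomial
open scoped IntermediateField

universe u

namespace PGL.H11

theorem ge_zero_of_root {k R : Type*} [Field k] [Field R] [Algebra k R] (P : Place k R) {z : R}
    (p : R[X]) (hp : p.Monic) (hc : ∀ i, P.Ge 0 (p.coeff i)) (hz : p.eval z = 0) : P.Ge 0 z := by
  by_contra hcon
  have hz0 : z ≠ 0 := by rintro rfl; exact hcon (P.ge_zero 0)
  have hord : P.ord z < 0 := by
    rw [P.ge_iff hz0] at hcon
    omega
  have h1 : z ^ p.natDegree = - ∑ i ∈ Finset.range p.natDegree, p.coeff i * z ^ i := by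
    have h2 := hz
    rw [eval_eq_sum_range, Finset.sum_range_succ, hp.coeff_natDegree, one_mul] at h2
    linear_combination h2
  have hn : 0 < p.natDegree := by
    rw [Nat.pos_iff_ne_zero]
    intro h0
    rw [h0] at h1
    simp at h1
  have h3 : P.Ge (P.ord z * (p.natDegree - 1 : ℤ)) (z ^ p.natDegree) := by
    rw [h1]
    apply Place.Ge.neg
    apply Place.Ge.sum
    intro i hi
    rw [Finset.mem_range] at hi
    have h4 : P.Ge (i * P.ord z) (z ^ i) := by
      have := (P.ge_ord (y := z)).pow i
      exact this
    refine (hc i).mul' h4 ?_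
    have h5 : (i : ℤ) ≤ p.natDegree - 1 := by omega
    nlinarith
  rw [P.ge_iff (pow_ne_zero _ hz0), P.ord_pow] at h3
  nlinarith

/-- CONV -/
theorem conv : ConvStmt.{u} := by
  classical
  intro k _ _ _ ν D A _ _ x α S hC hS
  have := hC.dom
  set R := FractionRing A with hR
  have hinj : Function.Injective (algebraMap A R) := IsFractionRing.injective A R
  set t : R := algebraMap A R (lin α x) with htdef
  have htr : Transcendental k t := by
    rw [htdef, transcendental_algebraMap_iff hinj]
    exact hC.trans
  obtain ⟨hfd, hfr⟩ := hC.fin R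
  have hFF : FF k R := FF.of_finite htr hfd
  obtain ⟨s, hs, hsum⟩ := exists_poles htr
  have ht0 : t ≠ 0 := by
    intro h0
    rw [h0] at htr
    exact htr isAlgebraic_zero
  obtain ⟨b, hb, hbc⟩ := exists_multiset (fun P : Place k R => max 0 (- P.ord t)) s
    (fun P => le_max_left _ _) (fun P hP => by
      rw [hs] at hP
      exact max_eq_left (by omega))
  have hht : ht k t = Module.finrank k⟮t⟯ R := by
    unfold PGH.ht
    rw [if_pos htr]
  have hcard : Multiset.card b = ht k t := by
    have h1 : (Multiset.card b : ℤ) = ht k t := by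
      rw [hbc, ← hsum]
      refine Finset.sum_congr rfl (fun P hP => ?_)
      have := (hs P).1 hP
      exact max_eq_right (by omega)
    exact_mod_cast h1
  -- the poles of the coordinates
  have hpol : PolesLe (fun j => algebraMap A R (x j)) b := by
    intro P j
    obtain ⟨u, hu0, hu⟩ := P.exists_unif
    set c : ℕ := b.count P with hc
    have hcP : (c : ℤ) = max 0 (- P.ord t) := hb P
    have hci : Polynomial.eval₂RingHom (algebraMap A R) (u ^ c) (C (x j) * X) =
        algebraMap A R (x j) * u ^ c := by
      simp
    have huc : P.Ge c (u ^ c) := by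
      rw [P.ge_iff (pow_ne_zero _ hu0), P.ord_pow, hu]
      omega
    have hmem : ∀ q ∈ Algebra.adjoin k (insert (X : A[X])
        (Set.range fun _ : Unit => C (lin α x) * X)),
        P.Ge 0 (Polynomial.eval₂RingHom (algebraMap A R) (u ^ c) q) := by
      intro q hq
      induction hq using Algebra.adjoin_induction with
      | mem y hy =>
        rcases hy with rfl | ⟨_, rfl⟩
        · simp only [coe_eval₂RingHom, eval₂_X]
          exact huc.mono (by omega)
        · simp only [coe_eval₂RingHom, eval₂_mul, eval₂_C, eval₂_X]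
          refine (P.ge_ord (y := t)).mul' huc ?_
          have := le_max_right 0 (- P.ord t)
          omega
      | algebraMap r =>
        have h1 : algebraMap k A[X] r = C (algebraMap k A r) := rfl
        rw [h1]
        simp only [coe_eval₂RingHom, eval₂_C]
        rw [← IsScalarTower.algebraMap_apply]
        exact P.ge_const r
      | add y z _ _ hy hz => rw [map_add]; exact hy.add hz
      | mul y z _ _ hy hz => rw [map_mul]; exact hy.mul' hz (by omega)
    obtain ⟨p, hp, hpz⟩ := hC.int j
    have h2 : P.Ge 0 (algebraMap A R (x j) * u ^ c) := by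
      rw [← hci]
      refine ge_zero_of_root P (p.map ((Polynomial.eval₂RingHom (algebraMap A R) (u ^ c)).comp
        (algebraMap _ A[X]))) (hp.map _) ?_ ?_
      · intro i
        rw [coeff_map]
        exact hmem _ (p.coeff i).2
      · rw [eval_map, ← Polynomial.hom_eval₂]
        rw [hpz, map_zero]
    have h3 : algebraMap A R (x j) = (algebraMap A R (x j) * u ^ c) * (u ^ c)⁻¹ := by
      rw [mul_assoc, mul_inv_cancel₀ (pow_ne_zero _ hu0), mul_one]
    change P.Ge (-(c : ℤ)) (algebraMap A R (x j))
    rw [h3]
    refine h2.mul' (n := -(c : ℤ)) ?_ (by omega)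
    rw [P.ge_iff (inv_ne_zero (pow_ne_zero _ hu0)), P.ord_inv, P.ord_pow, hu]
    omega
  -- the places above the points
  have hQ : ∀ p : Fin ν → k, ∃ Q : Place k R, p ∈ S →
      ∀ j, Q.Ge 1 (algebraMap A R (x j) - algebraMap k R (p j)) := by
    intro p
    by_cases hp : p ∈ S
    swap
    · obtain ⟨Q, _⟩ := exists_zero htr 0
      exact ⟨Q, fun h => absurd h hp⟩
    obtain ⟨χ, hχ⟩ := hS p hp
    let A' : Subring R := (algebraMap A R).range
    let e : A →+* A' := (algebraMap A R).rangeRestrict
    have he : Function.Bijective e := ⟨fun a b h => hinj (congrArg Subtype.val h),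
      RingHom.rangeRestrict_surjective _⟩
    let I : Ideal A' := (RingHom.ker (χ : A →+* k)).comap
      (RingEquiv.ofBijective e he).symm.toRingHom
    have hmemI : ∀ a : A, χ a = 0 → e a ∈ I := by
      intro a ha
      change (RingEquiv.ofBijective e he).symm (e a) ∈ RingHom.ker (χ : A →+* k)
      have h1 : (RingEquiv.ofBijective e he).symm (e a) = a :=
        (RingEquiv.ofBijective e he).symm_apply_apply a
      rw [h1]
      exact ha
    have hI : I ≠ ⊤ := by
      intro h
      have h1 : (1 : A') ∈ I := by rw [h]; trivial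
      have h2 : (RingEquiv.ofBijective e he).symm (1 : A') ∈ RingHom.ker (χ : A →+* k) := h1
      rw [map_one, RingHom.mem_ker, map_one] at h2
      exact one_ne_zero h2
    obtain ⟨B, hB1, hB2⟩ := Ideal.image_subset_nonunits_valuationSubring I hI
    have hB3 : ∀ a : A, χ a = 0 → algebraMap A R a ∈ B.nonunits := fun a ha =>
      hB2 ⟨e a, hmemI a ha, rfl⟩
    have hkB : ∀ c : k, algebraMap k R c ∈ B := by
      intro c
      apply hB1
      exact ⟨algebraMap k A c, (IsScalarTower.algebraMap_apply k A R c).symm⟩
    have hBtop : B ≠ ⊤ := by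
      intro h
      have h1 : χ (lin α x - algebraMap k A (χ (lin α x))) = 0 := by
        rw [map_sub, AlgHom.commutes]; exact sub_self _
      have h2 := hB3 _ h1
      have h3 : algebraMap A R (lin α x - algebraMap k A (χ (lin α x))) ≠ 0 := by
        rw [map_sub, sub_ne_zero]
        intro h4
        rw [← IsScalarTower.algebraMap_apply] at h4
        exact htr (by rw [htdef, h4]; exact isAlgebraic_algebraMap _)
      rw [ValuationSubring.mem_nonunits_iff_or, h] at h2
      rcases h2 with h2 | h2
      · exact h3 h2
      · exact h2 trivial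
    obtain ⟨Q, hQ⟩ := Place.exists_of_valuationSubring B hkB hBtop
    refine ⟨Q, fun _ j => ?_⟩
    have h1 : χ (x j - algebraMap k A (p j)) = 0 := by
      rw [map_sub, AlgHom.commutes, hχ]; exact sub_self _
    have h2 := hB3 _ h1
    rw [map_sub, ← IsScalarTower.algebraMap_apply] at h2
    by_cases h0 : algebraMap A R (x j) - algebraMap k R (p j) = 0
    · rw [h0]; exact Q.ge_zero 1
    · rw [ValuationSubring.mem_nonunits_iff_or] at h2
      have h3 := (h2.resolve_left h0)
      rw [← hQ, Q.ge_iff (inv_ne_zero h0), Q.ord_inv] at h3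
      rw [Q.ge_iff h0]
      omega
  choose Q hQ using hQ
  refine ⟨R, inferInstance, inferInstance, hFF, fun j => algebraMap A R (x j), b, Q, ?_, ?_, hpol,
    fun p hp j => hQ p hp j⟩
  · rw [hcard]; exact ht_pos htr
  · rw [hcard, hht]; exact hfr

end PGL.H11
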