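import Mathlib
import Pool.Agent.Helper11_PGL.StmtG

open PGH

universe u v

namespace PGL.H11

section mkval

variable {A : Type u} {K : Type v} [CommRing A] [IsDomain A] [Field K] [Algebra A K]
  [IsFractionRing A K]

/-- an additive valuation on the fraction field of a domain from a function on the domain -/
theorem exists_addValuation (d : A → ℤ) (hmul : ∀ a b, a ≠ 0 → b ≠ 0 → d (a * b) = d a + d b)
    (hadd : ∀ a b, a ≠ 0 → b ≠ 0 → a + b ≠ 0 → min (d a) (d b) ≤ d (a + b)) :
    ∃ w : AddValuation K (WithTop ℤ), ∀ a, a ≠ 0 → w (algebraMap A K a) = (d a : ℤ) := by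
  classical
  have hd1 : d 1 = 0 := by
    have := hmul 1 1 one_ne_zero one_ne_zero
    rw [mul_one] at this
    omega
  have hex : ∀ x : K, ∃ a b : A, b ≠ 0 ∧ x = algebraMap A K a / algebraMap A K b := by
    intro x
    obtain ⟨a, b, hb, hab⟩ := IsFractionRing.div_surjective (A := A) x
    exact ⟨a, b, nonZeroDivisors.ne_zero hb, hab.symm⟩
  choose num den hden hx using hex
  have hinj : Function.Injective (algebraMap A K) := IsFractionRing.injective A K
  have hmap0 : ∀ a : A, a ≠ 0 → algebraMap A K a ≠ 0 := fun a ha h =>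
    ha (hinj (by rw [h, map_zero]))
  have hnum : ∀ x : K, x ≠ 0 → num x ≠ 0 := by
    intro x h0 h1
    apply h0
    rw [hx x, h1, map_zero, zero_div]
  let o : K → ℤ := fun x => d (num x) - d (den x)
  have ho : ∀ (x : K) (a b : A), x ≠ 0 → b ≠ 0 → x = algebraMap A K a / algebraMap A K b →
      o x = d a - d b := by
    intro x a b h0 hb h1
    have ha : a ≠ 0 := by
      rintro rfl
      apply h0
      rw [h1, map_zero, zero_div]
    have h2 : num x * b = a * den x := by
      apply hinj
      rw [map_mul, map_mul]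
      have h3 := (hx x).symm.trans h1
      rw [div_eq_div_iff (hmap0 _ (hden x)) (hmap0 _ hb)] at h3
      exact h3
    have h3 := congrArg d h2
    rw [hmul _ _ (hnum x h0) hb, hmul _ _ ha (hden x)] at h3
    change d (num x) - d (den x) = _
    omega
  have homul : ∀ x y : K, x ≠ 0 → y ≠ 0 → o (x * y) = o x + o y := by
    intro x y h0 h1
    have h2 : x * y = algebraMap A K (num x * num y) / algebraMap A K (den x * den y) := by
      conv_lhs => rw [hx x, hx y]
      rw [map_mul, map_mul, div_mul_div_comm]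
    rw [ho _ _ _ (mul_ne_zero h0 h1) (mul_ne_zero (hden x) (hden y)) h2,
      hmul _ _ (hnum x h0) (hnum y h1), hmul _ _ (hden x) (hden y)]
    change _ = (d (num x) - d (den x)) + (d (num y) - d (den y))
    ring
  have hoadd : ∀ x y : K, x ≠ 0 → y ≠ 0 → x + y ≠ 0 → min (o x) (o y) ≤ o (x + y) := by
    intro x y h0 h1 h2
    have h3 : x + y = algebraMap A K (num x * den y + num y * den x) /
        algebraMap A K (den x * den y) := by
      conv_lhs => rw [hx x, hx y]
      rw [div_add_div _ _ (hmap0 _ (hden x)) (hmap0 _ (hden y))]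
      simp only [map_add, map_mul]
      ring
    have h4 : num x * den y + num y * den x ≠ 0 := by
      intro h
      apply h2
      rw [h3, h, map_zero, zero_div]
    rw [ho _ _ _ h2 (mul_ne_zero (hden x) (hden y)) h3, hmul _ _ (hden x) (hden y)]
    have h5 := hadd _ _ (mul_ne_zero (hnum x h0) (hden y)) (mul_ne_zero (hnum y h1) (hden x)) h4
    rw [hmul _ _ (hnum x h0) (hden y), hmul _ _ (hnum y h1) (hden x)] at h5
    change min (d (num x) - d (den x)) (d (num y) - d (den y)) ≤ _
    omega
  let f : K → WithTop ℤ := fun x => if x = 0 then ⊤ else ((o x : ℤ) : WithTop ℤ)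
  have hf : ∀ x, x ≠ 0 → f x = ((o x : ℤ) : WithTop ℤ) := fun x h => if_neg h
  have hf0 : f 0 = ⊤ := if_pos rfl
  have ho1 : o 1 = 0 := by
    rw [ho 1 1 1 one_ne_zero one_ne_zero (by simp), sub_self]
  refine ⟨AddValuation.of f hf0 ?_ ?_ ?_, ?_⟩
  · rw [hf 1 one_ne_zero, ho1]; rfl
  · intro x y
    by_cases h0 : x = 0
    · rw [h0, zero_add]; exact min_le_right _ _
    by_cases h1 : y = 0
    · rw [h1, add_zero]; exact min_le_left _ _
    by_cases h2 : x + y = 0
    · rw [h2, hf0]; exact le_top
    rw [hf _ h0, hf _ h1, hf _ h2]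
    have := hoadd x y h0 h1 h2
    exact_mod_cast this
  · intro x y
    by_cases h0 : x = 0
    · rw [h0, zero_mul, hf0, WithTop.top_add]
    by_cases h1 : y = 0
    · rw [h1, mul_zero, hf0, WithTop.add_top]
    rw [hf _ h0, hf _ h1, hf _ (mul_ne_zero h0 h1), homul x y h0 h1]
    exact WithTop.coe_add _ _
  · intro a ha
    change f _ = _
    rw [hf _ (hmap0 a ha), ho _ a 1 (hmap0 a ha) one_ne_zero (by simp), hd1, sub_zero]

end mkval

end PGL.H11
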