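import Mathlib
import Pool.Agent.Helper11_PGL.Hyper1

open PGH

universe u v

namespace PGL.H11

section mv

variable {k : Type u} [Field k] {n : ℕ} {K : Type v} [Field K] [Algebra (MvPolynomial (Fin n) k) K]
  [IsFractionRing (MvPolynomial (Fin n) k) K]

/-- the valuations of the field of rational functions used for hyperplanes -/
def HW (k : Type u) [Field k] (n : ℕ) (K : Type v) [Field K]
    [Algebra (MvPolynomial (Fin n) k) K] : Set (AddValuation K (WithTop ℤ)) :=
  {w | ∃ d : MvPolynomial (Fin n) k → ℤ,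
    (∀ a, a ≠ 0 → w (algebraMap (MvPolynomial (Fin n) k) K a) = (d a : ℤ)) ∧
    ((∀ a, a ≠ 0 → d a = - (a.totalDegree : ℤ)) ∨
      ∃ p : MvPolynomial (Fin n) k, Irreducible p ∧ ∀ a, a ≠ 0 → d a = (multiplicity p a : ℤ))}

theorem exists_deg : ∃ w ∈ HW k n K, ∀ a : MvPolynomial (Fin n) k, a ≠ 0 →
    w (algebraMap (MvPolynomial (Fin n) k) K a) = ((- (a.totalDegree : ℤ) : ℤ) : WithTop ℤ) := by
  obtain ⟨w, hw⟩ := exists_addValuation (K := K)
    (fun a : MvPolynomial (Fin n) k => - (a.totalDegree : ℤ)) (by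
      intro a b ha hb
      rw [MvPolynomial.totalDegree_mul_of_isDomain ha hb]
      push_cast
      ring) (by
      intro a b _ _ _
      have := MvPolynomial.totalDegree_add a b
      omega)
  exact ⟨w, ⟨_, hw, Or.inl (fun _ _ => rfl)⟩, hw⟩

theorem exists_prime_val {p : MvPolynomial (Fin n) k} (hp : Irreducible p) :
    ∃ w ∈ HW k n K, ∀ a : MvPolynomial (Fin n) k, a ≠ 0 →
    w (algebraMap (MvPolynomial (Fin n) k) K a) = ((multiplicity p a : ℤ) : WithTop ℤ) := by
  have hprime : Prime p := hp.prime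
  have hfin : ∀ a : MvPolynomial (Fin n) k, a ≠ 0 → FiniteMultiplicity p a := fun a ha =>
    FiniteMultiplicity.of_prime_left hprime ha
  obtain ⟨w, hw⟩ := exists_addValuation (K := K)
    (fun a : MvPolynomial (Fin n) k => (multiplicity p a : ℤ)) (by
      intro a b ha hb
      rw [multiplicity_mul hprime (hfin _ (mul_ne_zero ha hb))]
      push_cast
      ring) (by
      intro a b ha hb hab
      have h1 : p ^ (min (multiplicity p a) (multiplicity p b)) ∣ a + b := by
        apply dvd_add
        · exact (pow_dvd_pow p (min_le_left _ _)).trans (pow_multiplicity_dvd p a)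
        · exact (pow_dvd_pow p (min_le_right _ _)).trans (pow_multiplicity_dvd p b)
      have h2 := (hfin _ hab).le_multiplicity_of_pow_dvd h1
      have h3 : min (multiplicity p a : ℤ) (multiplicity p b : ℤ) =
        ((min (multiplicity p a) (multiplicity p b) : ℕ) : ℤ) := by push_cast; rfl
      rw [h3]
      exact_mod_cast h2)
  exact ⟨w, ⟨_, hw, Or.inr ⟨p, hp, fun _ _ => rfl⟩⟩, hw⟩

omit [IsFractionRing (MvPolynomial (Fin n) k) K] in
theorem hw_const {w : AddValuation K (WithTop ℤ)} (hw : w ∈ HW k n K) {c : k} (hc : c ≠ 0) :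
    w (algebraMap (MvPolynomial (Fin n) k) K (MvPolynomial.C c)) = 0 := by
  obtain ⟨d, hd, h⟩ := hw
  have hC : (MvPolynomial.C c : MvPolynomial (Fin n) k) ≠ 0 := by
    rw [Ne, MvPolynomial.C_eq_zero]; exact hc
  rw [hd _ hC]
  rcases h with h | ⟨p, hp, h⟩
  · rw [h _ hC]; simp
  · rw [h _ hC]
    have : multiplicity p (MvPolynomial.C c : MvPolynomial (Fin n) k) = 0 := by
      rw [multiplicity_eq_zero]
      intro hdvd
      apply hp.not_isUnit
      refine isUnit_of_dvd_unit hdvd ?_
      exact (isUnit_iff_ne_zero.2 hc).map MvPolynomial.C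
    rw [this]
    rfl

theorem hw_regular (x : K) (h : ∀ w ∈ HW k n K, 0 ≤ w x) :
    ∃ c : k, algebraMap (MvPolynomial (Fin n) k) K (MvPolynomial.C c) = x := by
  by_cases hx0 : x = 0
  · exact ⟨0, by rw [map_zero, map_zero, hx0]⟩
  have hinj : Function.Injective (algebraMap (MvPolynomial (Fin n) k) K) :=
    IsFractionRing.injective _ _
  obtain ⟨a, b, hb, hab, hcop⟩ : ∃ a b : MvPolynomial (Fin n) k, b ≠ 0 ∧
      x * algebraMap _ K b = algebraMap _ K a ∧ IsRelPrime a b := by
    refine ⟨IsFractionRing.num (MvPolynomial (Fin n) k) x,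
      IsFractionRing.den (MvPolynomial (Fin n) k) x,
      nonZeroDivisors.ne_zero (IsFractionRing.den (MvPolynomial (Fin n) k) x).2, ?_,
      IsFractionRing.num_den_reduced _ x⟩
    have h1 := IsFractionRing.mk'_num_den (MvPolynomial (Fin n) k) x
    rw [IsLocalization.mk'_eq_iff_eq_mul] at h1
    exact h1.symm
  have ha : a ≠ 0 := by
    rintro rfl
    rw [map_zero, mul_eq_zero] at hab
    rcases hab with h1 | h1
    · exact hx0 h1
    · exact hb (hinj (by rw [h1, map_zero]))
  have hbu : IsUnit b := by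
    by_contra hbu
    obtain ⟨p, hp, hpb⟩ := WfDvdMonoid.exists_irreducible_factor hbu hb
    have hpa : ¬ p ∣ a := fun hpa => hp.not_isUnit (hcop hpa hpb)
    obtain ⟨w, hw, hwp⟩ := exists_prime_val (K := K) hp
    have h1 := congrArg w hab
    rw [AddValuation.map_mul, hwp _ hb, hwp _ ha, multiplicity_eq_zero.2 hpa] at h1
    have h2 := h w hw
    have h3 : 1 ≤ multiplicity p b := by
      rw [Nat.one_le_iff_ne_zero]
      intro h0
      rw [multiplicity_eq_zero] at h0
      exact h0 hpb
    have h4 : ((1 : ℤ) : WithTop ℤ) ≤ ((multiplicity p b : ℤ) : WithTop ℤ) := by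
      exact_mod_cast h3
    have h5 : ((1 : ℤ) : WithTop ℤ) ≤ w x + ((multiplicity p b : ℤ) : WithTop ℤ) := by
      refine h4.trans ?_
      exact le_add_of_nonneg_left h2
    rw [h1] at h5
    have h6 : (1 : ℤ) ≤ ((0 : ℕ) : ℤ) := by exact_mod_cast h5
    omega
  obtain ⟨b', hb'⟩ := hbu.exists_right_inv
  have hx : x = algebraMap _ K (a * b') := by
    have h1 : algebraMap (MvPolynomial (Fin n) k) K b * algebraMap _ K b' = 1 := by
      rw [← map_mul, hb', map_one]
    calc x = x * (algebraMap _ K b * algebraMap _ K b') := by rw [h1, mul_one]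
      _ = (x * algebraMap _ K b) * algebraMap _ K b' := by ring
      _ = _ := by rw [hab, map_mul]
  have hc0 : a * b' ≠ 0 := by
    intro h0
    apply hx0
    rw [hx, h0, map_zero]
  obtain ⟨w, hw, hwd⟩ := exists_deg (k := k) (n := n) (K := K)
  have h1 := h w hw
  rw [hx, hwd _ hc0] at h1
  have h2 : (0 : ℤ) ≤ - ((a * b').totalDegree : ℤ) := by exact_mod_cast h1
  have h3 : (a * b').totalDegree = 0 := by omega
  rw [MvPolynomial.totalDegree_eq_zero_iff_eq_C] at h3
  exact ⟨_, by rw [hx, ← h3]⟩

omit [IsFractionRing (MvPolynomial (Fin n) k) K] in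
/-- a nonzero polynomial of degree at most one -/
theorem hw_linear {w : AddValuation K (WithTop ℤ)} (hw : w ∈ HW k n K)
    {l y : MvPolynomial (Fin n) k} (hl0 : l ≠ 0) (hl : l.totalDegree ≤ 1) (hy : y.totalDegree ≤ 1) :
    w (algebraMap (MvPolynomial (Fin n) k) K l) ≤
      1 + w (algebraMap (MvPolynomial (Fin n) k) K y) := by
  by_cases hy0 : y = 0
  · rw [hy0, map_zero, AddValuation.map_zero]
    simp
  obtain ⟨d, hd, h⟩ := hw
  rw [hd _ hl0, hd _ hy0]
  have key : d l ≤ 1 + d y := by
    rcases h with h | ⟨p, hp, h⟩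
    · rw [h _ hl0, h _ hy0]; omega
    · rw [h _ hl0, h _ hy0]
      have h1 : multiplicity p l ≤ 1 := by
        by_contra hcon
        push Not at hcon
        have h2 : p ^ 2 ∣ l := (pow_dvd_pow p (by omega)).trans (pow_multiplicity_dvd p l)
        obtain ⟨q, hq⟩ := h2
        have hq0 : q ≠ 0 := by
          rintro rfl
          exact hl0 (by rw [hq, mul_zero])
        have hp1 : 1 ≤ p.totalDegree := by
          rw [Nat.one_le_iff_ne_zero]
          intro h0
          rw [MvPolynomial.totalDegree_eq_zero_iff_eq_C] at h0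
          apply hp.not_isUnit
          rw [h0]
          apply IsUnit.map
          rw [isUnit_iff_ne_zero]
          intro h1
          rw [h1, map_zero] at h0
          exact hp.ne_zero h0
        have h3 : l.totalDegree = 2 * p.totalDegree + q.totalDegree := by
          rw [hq, MvPolynomial.totalDegree_mul_of_isDomain (pow_ne_zero _ hp.ne_zero) hq0, pow_two,
            MvPolynomial.totalDegree_mul_of_isDomain hp.ne_zero hp.ne_zero]
          ring
        omega
      have : (0 : ℤ) ≤ (multiplicity p y : ℤ) := by positivity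
      omega
  exact_mod_cast key

end mv

end PGL.H11
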