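import Mathlib
import Pool.Agent.Helper11_PGL.Hyper2

open PGH

universe u

namespace PGL.H11

/-- the polynomial of a linear form in the affine coordinates -/
noncomputable def linPoly {k : Type*} [Field k] {n : ℕ} (c : Fin (n + 1) → k) :
    MvPolynomial (Fin n) k := MvPolynomial.C (c 0) + ∑ l : Fin n, MvPolynomial.C (c l.succ) *
      MvPolynomial.X l

theorem linPoly_degree {k : Type*} [Field k] {n : ℕ} (c : Fin (n + 1) → k) :
    (linPoly c).totalDegree ≤ 1 := by
  unfold linPoly
  refine (MvPolynomial.totalDegree_add _ _).trans (max_le ?_ ?_)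
  · rw [MvPolynomial.totalDegree_C]; omega
  · refine (MvPolynomial.totalDegree_finsetSum_le (d := 1) ?_)
    intro l _
    refine (MvPolynomial.totalDegree_mul _ _).trans ?_
    rw [MvPolynomial.totalDegree_C, MvPolynomial.totalDegree_X]

theorem linPoly_ne_zero {k : Type*} [Field k] {n : ℕ} {c : Fin (n + 1) → k} (hc : c ≠ 0) :
    linPoly c ≠ 0 := by
  classical
  intro h
  apply hc
  have h0 : c 0 = 0 := by
    have h1 := congrArg (MvPolynomial.eval (fun _ => 0)) h
    simpa [linPoly] using h1
  funext j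
  refine Fin.cases h0 (fun l => ?_) j
  have h1 := congrArg (MvPolynomial.eval (fun i => if i = l then 1 else 0)) h
  simp [linPoly, h0] at h1
  exact h1

/-- the affine coordinates -/
noncomputable def affY {k : Type*} [Field k] {n : ℕ} : Fin (n + 1) → MvPolynomial (Fin n) k :=
  Fin.cons 1 MvPolynomial.X

theorem affY_zero {k : Type*} [Field k] {n : ℕ} : (affY 0 : MvPolynomial (Fin n) k) = 1 := rfl

theorem affY_succ {k : Type*} [Field k] {n : ℕ} (l : Fin n) :
    (affY l.succ : MvPolynomial (Fin n) k) = MvPolynomial.X l := rfl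

theorem affY_degree {k : Type*} [Field k] {n : ℕ} (j : Fin (n + 1)) :
    (affY j : MvPolynomial (Fin n) k).totalDegree ≤ 1 := by
  refine Fin.cases ?_ (fun l => ?_) j
  · rw [affY_zero, MvPolynomial.totalDegree_one]; omega
  · rw [affY_succ, MvPolynomial.totalDegree_X]

theorem linPoly_eq {k : Type*} [Field k] {n : ℕ} (c : Fin (n + 1) → k) :
    linPoly c = ∑ j, MvPolynomial.C (c j) * affY j := by
  rw [Fin.sum_univ_succ, affY_zero, mul_one]
  unfold linPoly
  congr 1

theorem linearIndependent_map {k V : Type*} [Field k] [Field V] (f : k →+* V) {n : ℕ}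
    {ι : Type*} [Fintype ι] (hcard : Fintype.card ι = n + 1) (p : ι → Fin (n + 1) → k)
    (hp : LinearIndependent k p) : LinearIndependent V (fun i l => f (p i l)) := by
  classical
  let σ : Fin (n + 1) ≃ ι := (Fintype.equivFinOfCardEq hcard).symm
  have h1 : LinearIndependent k (fun i => p (σ i)) := hp.comp σ σ.injective
  let A : Matrix (Fin (n + 1)) (Fin (n + 1)) k := Matrix.of (fun i j => p (σ i) j)
  have h2 : IsUnit A := Matrix.linearIndependent_rows_iff_isUnit.1 h1
  have h3 : IsUnit (A.map f) := by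
    rw [Matrix.isUnit_iff_isUnit_det] at h2 ⊢
    have h4 : (A.map f).det = f A.det := (RingHom.map_det f A).symm
    rw [h4]
    exact h2.map f
  have h5 : LinearIndependent V (fun i : Fin (n + 1) => (fun l => f (p (σ i) l))) :=
    Matrix.linearIndependent_rows_iff_isUnit.2 h3
  have h6 := h5.comp σ.symm σ.symm.injective
  convert h6 using 1
  funext i l
  simp

theorem exists_V {k M : Type u} [Field k] [Field M] [Algebra k M] {n : ℕ} (x : Fin n → M)
    (hx : AlgebraicIndependent k x) :
    ∃ (V : Subfield M) (_ : Algebra (MvPolynomial (Fin n) k) V),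
      IsFractionRing (MvPolynomial (Fin n) k) V ∧ (∀ c : k, algebraMap k M c ∈ V) ∧
      ∀ a, ((algebraMap (MvPolynomial (Fin n) k) V a : V) : M) = MvPolynomial.aeval x a := by
  let φ : MvPolynomial (Fin n) k →ₐ[k] M := MvPolynomial.aeval x
  have hφ : Function.Injective φ := hx
  let V : Subfield M := (IntermediateField.adjoin k (Set.range x)).toSubfield
  have hmem : ∀ a, φ a ∈ V := by
    intro a
    have h2 : φ a ∈ φ.range := ⟨a, rfl⟩
    have h3 : φ.range = Algebra.adjoin k (Set.range x) :=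
      (Algebra.adjoin_range_eq_range_aeval k _).symm
    rw [h3] at h2
    exact IntermediateField.algebra_adjoin_le_adjoin _ _ h2
  let ψ : MvPolynomial (Fin n) k →+* V := φ.toRingHom.codRestrict V hmem
  have hψ : Function.Injective ψ := fun a b h => hφ (congrArg Subtype.val h)
  let _ : Algebra (MvPolynomial (Fin n) k) V := ψ.toAlgebra
  have : FaithfulSMul (MvPolynomial (Fin n) k) V :=
    (faithfulSMul_iff_algebraMap_injective _ _).2 hψ
  have hfr : IsFractionRing (MvPolynomial (Fin n) k) V := by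
    apply IsFractionRing.of_field
    rintro ⟨z, hz⟩
    obtain ⟨x, hx, y, hy, hxy⟩ := IntermediateField.mem_adjoin_iff_div.1 hz
    rw [Algebra.adjoin_range_eq_range_aeval] at hx hy
    obtain ⟨a, ha⟩ := hx
    obtain ⟨b, hb⟩ := hy
    refine ⟨a, b, Subtype.ext ?_⟩
    change z = φ a / φ b
    rw [hxy, ← ha, ← hb]
    rfl
  exact ⟨V, ψ.toAlgebra, hfr, fun c =>
    (IntermediateField.adjoin k (Set.range x)).algebraMap_mem c, fun a => rfl⟩

theorem isAlgebraic_mono {M : Type*} [Field M] {S T : Subfield M} (h : S ≤ T) {a : M}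
    (ha : IsAlgebraic S a) : IsAlgebraic T a := by
  obtain ⟨p, hp0, hp⟩ := ha
  have hι : (algebraMap T M).comp (Subfield.inclusion h) = algebraMap S M := rfl
  refine ⟨p.map (Subfield.inclusion h), ?_, ?_⟩
  · rw [Ne, Polynomial.map_eq_zero_iff (Subfield.inclusion h).injective]
    exact hp0
  · rw [Polynomial.aeval_def, Polynomial.eval₂_map, hι]
    exact hp

theorem hyper_core {k M : Type u} [Field k] [Field M] [Algebra k M] (N₀ : ℕ → ℕ)
    (F F' : Subfield M) {n N m : ℕ} (x : Fin n → M) (L : Fin N → Fin (n + 1) → k) (u : M)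
    (b z : Fin N → M) (hFF' : F ≤ F') (hN : N₀ n ≤ N) (hnN : n < N) (hm : 2 ≤ m)
    (hL : ∀ s : Finset (Fin N), s.card = n + 1 → LinearIndependent k (fun i : s => L i))
    (hval : ∀ i, b i ∈ F ∧ algebraMap k M (L i 0) + ∑ l : Fin n, algebraMap k M (L i l.succ) * x l =
      u * b i * z i ^ m)
    (halg : ∀ a ∈ F', IsAlgebraic (Subfield.closure ((F : Set M) ∪ Set.range x)) a)
    (V : Subfield M) [Algebra (MvPolynomial (Fin n) k) V]
    [IsFractionRing (MvPolynomial (Fin n) k) V] (hkV : ∀ c : k, algebraMap k M c ∈ V)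
    (hcoe : ∀ a, ((algebraMap (MvPolynomial (Fin n) k) V a : V) : M) = MvPolynomial.aeval x a) :
    LinSysStep N₀ (algebraMap k M).fieldRange F F' := by
  classical
  set ψ : MvPolynomial (Fin n) k →+* V := algebraMap (MvPolynomial (Fin n) k) V with hψdef
  have hψ : Function.Injective ψ := IsFractionRing.injective _ _
  have hL0 : ∀ i, L i ≠ 0 := by
    intro i
    obtain ⟨s, his, hs⟩ : ∃ s : Finset (Fin N), i ∈ s ∧ s.card = n + 1 := by
      obtain ⟨s, h1, h2⟩ := Finset.exists_superset_card_eq (s := {i}) (n := n + 1) (by simp)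
        (by simp; omega)
      exact ⟨s, h1 (Finset.mem_singleton_self i), h2⟩
    exact (hL s hs).ne_zero ⟨i, his⟩
  have hsum : ∀ i, ∑ l, ψ (MvPolynomial.C (L i l)) * ψ (affY l) = ψ (linPoly (L i)) := by
    intro i
    rw [linPoly_eq, map_sum]
    exact Finset.sum_congr rfl (fun l _ => (map_mul _ _ _).symm)
  have hK : ∀ c : k, ((ψ (MvPolynomial.C c) : V) : M) = algebraMap k M c := fun c => by
    rw [hcoe, MvPolynomial.aeval_C]
  refine ⟨hFF', V, HW k n V, n, N, m, fun j => ψ (affY j), fun i l => ψ (MvPolynomial.C (L i l)), u,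
    b, z, hN, hm, ?_, ?_, ?_, ?_, ?_, ?_, ?_, ?_⟩
  · rintro _ ⟨c, rfl⟩
    exact hkV c
  · rintro w hw c ⟨c', hc'⟩ hc0
    have h1 : c = ψ (MvPolynomial.C c') := by
      apply Subtype.ext
      rw [hK, hc']
    have h2 : c' ≠ 0 := by
      rintro rfl
      apply hc0
      rw [h1, map_zero, map_zero]
    rw [h1]
    exact hw_const hw h2
  · intro a ha
    obtain ⟨c, hc⟩ := hw_regular (k := k) (n := n) a ha
    refine ⟨c, ?_⟩
    rw [← hK, hψdef, hc]
  · intro i l
    exact ⟨L i l, (hK _).symm⟩
  · intro s hs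
    exact linearIndependent_map (ψ.comp MvPolynomial.C) (by rw [Fintype.card_coe, hs])
      (fun i : s => L i) (hL s hs)
  · intro w hw i j
    rw [hsum]
    exact hw_linear hw (linPoly_ne_zero (hL0 i)) (linPoly_degree _) (affY_degree j)
  · intro i
    rw [hsum]
    refine ⟨?_, (hval i).1, ?_⟩
    · intro h0
      exact linPoly_ne_zero (hL0 i) (hψ (by rw [h0, map_zero]))
    · rw [← (hval i).2, hcoe]
      simp only [linPoly, map_add, map_sum, map_mul, MvPolynomial.aeval_C, MvPolynomial.aeval_X]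
  · intro a ha
    refine isAlgebraic_mono (Subfield.closure_mono ?_) (halg a ha)
    rintro y (hy | ⟨l, rfl⟩)
    · exact Or.inl hy
    · right
      refine ⟨l.succ, 0, ?_⟩
      rw [hcoe, hcoe, affY_succ, affY_zero, MvPolynomial.aeval_X, map_one, div_one]

/-- HYPER -/
theorem hyper : HyperStmt.{u} := by
  intro N₀ k M _ _ _ _ _ F F' n N m x L u b z hFF' hN hnN hm hx hL hval halg
  obtain ⟨V, _, _, hkV, hcoe⟩ := exists_V x hx
  exact hyper_core N₀ F F' x L u b z hFF' hN hnN hm hL hval halg V hkV hcoe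

end PGL.H11
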